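import Mathlib

/-!
ROW Cq (adjoining the `M`-th roots of unity to `F`; about 120 lines, Mathlib only).  PROOF.
`F' := CyclotomicField M F` (`IsCyclotomicExtension {M} F F'`), a number field (`Module.Finite.trans F`, `IsCyclotomicExtension.numberField`), `e = algebraMap F F'`. `ζ = IsCyclotomicExtension.zeta M F F'`, primitive of order `M` (`zeta_spec`).
`C' := IntermediateField.adjoin ℚ {ζ}`, `IsCyclotomicExtension {M} ℚ C'` by `IsPrimitiveRoot.intermediateField_adjoin_isCyclotomicExtension`.
(1) `F'/ℚ` is Galois: `F'` is the sup of the images of `F` (normal over `ℚ`) and of `C'` (normal over `ℚ`: `IsCyclotomicExtension.isGalois {M} ℚ C'`): `IntermediateField.normal_sup`, and the sup is `⊤`: `F'` is generated over `F` by `ζ`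
(`IsCyclotomicExtension.adjoin_primitive_root_eq_top`).
(2) the image of `F₀` is in `C'`: `F₀/ℚ` is normal (it is a subfield of the abelian extension `CyclotomicField m ℚ`: `IsAbelianGalois.of_algHom`, `IsCyclotomicExtension.isAbelianGalois`); `F₀ → CyclotomicField m ℚ → C'` (as `m ∣ M`: `C'` contains a primitive `m`-th root of unity; embedding of the cyclotomic field:
`IsCyclotomicExtension.algEquiv` with `IntermediateField.adjoin ℚ {ζ^(M/m)}`, or lift by `nonempty_algHom_of_adjoin_splits`) and `F₀ → F → F'` are two embeddings of a normal extension, so they have the same range (`AlgHom.fieldRange_of_normal` with `F₀` made a subfield, or: the two maps `a, b : F₀ →ₐ[ℚ] F'` satisfy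
`b = a ∘ σ` for some `σ : F₀ ≃ₐ[ℚ] F₀`: `AlgHom.restrictNormal'`, see the usage of `restrictNormal` with `Algebra F₀ F' := a.toAlgebra`).
(3) restriction `Gal(F'/C') → Gal(F/F₀)`: an automorphism `g` of `F'` over `C'` maps `e F` to itself (`F/ℚ` normal: `AlgEquiv.restrictNormal`) and fixes the image of `F₀` (by (2)); it is injective, since `F'` is generated by `e F` and `ζ`. So `[F' : C'] = |Gal(F'/C')|` divides `|Gal(F/F₀)| = [F : F₀] = l^r`
(`Subgroup.card_dvd_of_injective`, `IsGalois.card_aut_eq_finrank`, `IsGalois.tower_top_of_isGalois ℚ _ _`), and is a power of `l` (`Nat.dvd_prime_pow`).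
See `Bsg_rho`, `Bsg_galL` in `Pool/Agent/H68/TL/Bsg.lean` for a model of (3).
-/

set_option autoImplicit false
open scoped Classical

open NumberField

namespace H68TM

theorem Cq_galois {M : ℕ} [NeZero M] {F F' : Type} [Field F] [NumberField F] [Field F']
    [NumberField F'] [Algebra F F'] [IsCyclotomicExtension {M} F F'] [IsGalois ℚ F] :
    IsGalois ℚ F' := by
  obtain ⟨q, hq, hs⟩ := IsGalois.is_separable_splitting_field ℚ F
  have h1 : Polynomial.IsSplittingField F F' ((Polynomial.X ^ M - 1 : Polynomial ℚ).map (algebraMap ℚ F)) := by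
    have e1 : (Polynomial.X ^ M - 1 : Polynomial ℚ).map (algebraMap ℚ F) = Polynomial.X ^ M - 1 := by
      rw [Polynomial.map_sub, Polynomial.map_pow, Polynomial.map_X, Polynomial.map_one]
    rw [e1]
    exact IsCyclotomicExtension.isSplittingField_X_pow_sub_one M F F'
  have h2 : (Polynomial.X ^ M - 1 : Polynomial ℚ) ≠ 0 := by
    have := Polynomial.X_pow_sub_C_ne_zero (NeZero.pos M) (1 : ℚ)
    rwa [Polynomial.C_1] at this
  have h3 : Polynomial.IsSplittingField ℚ F' (q * (Polynomial.X ^ M - 1)) :=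
    Polynomial.IsSplittingField.mul (K := F) F' q _ hq.ne_zero h2
  have h4 : Normal ℚ F' := Normal.of_isSplittingField (q * (Polynomial.X ^ M - 1))
  exact ⟨⟩

theorem Cq_lift {m M : ℕ} [NeZero M] (hmM : m ∣ M) {F' : Type} [Field F'] [NumberField F'] {z : F'}
    (hz : IsPrimitiveRoot z M) : ∃ j : CyclotomicField m ℚ →ₐ[ℚ] F', ∀ x, j x ∈ IntermediateField.adjoin ℚ {z} := by
  have hm0 : m ≠ 0 := fun h => NeZero.ne M (Nat.eq_zero_of_zero_dvd (h ▸ hmM))
  have : NeZero m := ⟨hm0⟩
  obtain ⟨k, hk⟩ := hmM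
  have hzm : IsPrimitiveRoot (z ^ k) m := hz.pow (NeZero.pos M) (by rw [hk, mul_comm])
  have h1 := Polynomial.X_pow_sub_one_splits hzm
  have h2 : ((Polynomial.X ^ m - 1 : Polynomial ℚ).map (algebraMap ℚ F')).Splits := by
    rw [Polynomial.map_sub, Polynomial.map_pow, Polynomial.map_X, Polynomial.map_one]
    rwa [Polynomial.C_1] at h1
  have hcy : IsCyclotomicExtension {m} ℚ (CyclotomicField m ℚ) := CyclotomicField.isCyclotomicExtension m ℚ
  have h3 : Polynomial.IsSplittingField ℚ (CyclotomicField m ℚ) (Polynomial.X ^ m - 1) :=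
    IsCyclotomicExtension.isSplittingField_X_pow_sub_one m ℚ (CyclotomicField m ℚ)
  refine ⟨Polynomial.IsSplittingField.lift (CyclotomicField m ℚ) (Polynomial.X ^ m - 1) h2, ?_⟩
  generalize Polynomial.IsSplittingField.lift (CyclotomicField m ℚ) (Polynomial.X ^ m - 1) h2 = j
  have hw := IsCyclotomicExtension.zeta_spec m ℚ (CyclotomicField m ℚ)
  have hjw : (j (IsCyclotomicExtension.zeta m ℚ (CyclotomicField m ℚ))) ^ M = 1 := by
    rw [← map_pow, hk, pow_mul, hw.pow_eq_one, one_pow, map_one]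
  obtain ⟨t, -, ht⟩ := hz.eq_pow_of_pow_eq_one hjw
  have hle : Algebra.adjoin ℚ ({IsCyclotomicExtension.zeta m ℚ (CyclotomicField m ℚ)} : Set (CyclotomicField m ℚ)) ≤
      ((IntermediateField.adjoin ℚ {z}).comap j).toSubalgebra := by
    rw [Algebra.adjoin_le_iff, Set.singleton_subset_iff]
    show j _ ∈ IntermediateField.adjoin ℚ {z}
    rw [← ht]
    exact pow_mem (IntermediateField.subset_adjoin ℚ _ (Set.mem_singleton z)) t
  rw [IsCyclotomicExtension.adjoin_primitive_root_eq_top hw] at hle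
  intro x
  exact hle (Algebra.mem_top (x := x))

theorem Cq_range {k F F' L : Type} [Field k] [Field F] [Field F'] [Field L] [Algebra k F] [Algebra k F']
    [Algebra k L] [Algebra F F'] [IsScalarTower k F F'] (F₀ : IntermediateField k F) (i : F₀ →ₐ[k] L)
    (j : L →ₐ[k] F') [IsAbelianGalois k L] (x : F₀) : ∃ y, j y = algebraMap F F' (x : F) := by
  have hab0 : IsAbelianGalois k F₀ := IsAbelianGalois.of_algHom i
  have hn0 : Normal k F₀ := hab0.toIsGalois.to_normal
  let e : F →ₐ[k] F' := IsScalarTower.toAlgHom k F F'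
  have hn1 : Normal k (F₀.map e) := Normal.of_algEquiv (F₀.equivMap e)
  let f : (F₀.map e) →ₐ[k] F' := (j.comp i).comp (F₀.equivMap e).symm.toAlgHom
  have hf : f.fieldRange = F₀.map e := AlgHom.fieldRange_of_normal f
  have hx : e (x : F) ∈ F₀.map e := ⟨x, x.2, rfl⟩
  rw [← hf] at hx
  obtain ⟨y, hy⟩ := hx
  exact ⟨i ((F₀.equivMap e).symm y), hy⟩

theorem Cq_mem {m M : ℕ} [NeZero M] (hmM : m ∣ M) {F F' : Type} [Field F] [NumberField F] [Field F']
    [NumberField F'] [Algebra F F'] (F₀ : IntermediateField ℚ F) (i : F₀ →+* CyclotomicField m ℚ) {z : F'}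
    (hz : IsPrimitiveRoot z M) (x : F₀) : algebraMap F F' (x : F) ∈ IntermediateField.adjoin ℚ {z} := by
  have hm0 : m ≠ 0 := fun h => NeZero.ne M (Nat.eq_zero_of_zero_dvd (h ▸ hmM))
  have hm1 : NeZero m := ⟨hm0⟩
  obtain ⟨j, hj⟩ := Cq_lift hmM hz
  have hcy : IsCyclotomicExtension {m} ℚ (CyclotomicField m ℚ) := CyclotomicField.isCyclotomicExtension m ℚ
  have hab : IsAbelianGalois ℚ (CyclotomicField m ℚ) := IsCyclotomicExtension.isAbelianGalois {m} ℚ _
  obtain ⟨y, hy⟩ := Cq_range F₀ i.toRatAlgHom j x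
  rw [← hy]
  exact hj _

theorem Cq_core {l m M r : ℕ} [Fact l.Prime] [NeZero M] (hmM : m ∣ M) {F F' : Type} [Field F] [NumberField F]
    [Field F'] [NumberField F'] [Algebra F F'] [IsCyclotomicExtension {M} F F'] (F₀ : IntermediateField ℚ F)
    [IsGalois ℚ F] (i : F₀ →+* CyclotomicField m ℚ) (hr : Module.finrank F₀ F = l ^ r) :
    ∃ (C' : IntermediateField ℚ F'), IsGalois ℚ F' ∧ IsCyclotomicExtension {M} ℚ C' ∧
      ∃ s : ℕ, Module.finrank C' F' = l ^ s := by
  have hG : IsGalois ℚ F' := Cq_galois (M := M) (F := F)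
  have hz := IsCyclotomicExtension.zeta_spec M F F'
  set z := IsCyclotomicExtension.zeta M F F' with hzz
  refine ⟨IntermediateField.adjoin ℚ {z}, hG, hz.intermediateField_adjoin_isCyclotomicExtension ℚ, ?_⟩
  have hmem := Cq_mem hmM F₀ i hz
  let φ : F₀ →+* (IntermediateField.adjoin ℚ {z} : IntermediateField ℚ F') :=
    ((algebraMap F F').comp (algebraMap F₀ F)).codRestrict (IntermediateField.adjoin ℚ {z}).toSubfield hmem
  let a1 : Algebra F₀ (IntermediateField.adjoin ℚ {z} : IntermediateField ℚ F') := φ.toAlgebra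
  have t1 : IsScalarTower F₀ (IntermediateField.adjoin ℚ {z} : IntermediateField ℚ F') F' :=
    IsScalarTower.of_algebraMap_eq (fun x => rfl)
  have hGF : IsGalois F₀ F := IsGalois.tower_top_of_isGalois ℚ F₀ F
  have hGC : IsGalois (IntermediateField.adjoin ℚ {z} : IntermediateField ℚ F') F' :=
    IsGalois.tower_top_of_isGalois ℚ _ F'
  have f1 : FiniteDimensional F₀ F := Module.Finite.of_restrictScalars_finite ℚ F₀ F
  have f2 : FiniteDimensional (IntermediateField.adjoin ℚ {z} : IntermediateField ℚ F') F' :=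
    Module.Finite.of_restrictScalars_finite ℚ _ F'
  let ρ : (F' ≃ₐ[(IntermediateField.adjoin ℚ {z} : IntermediateField ℚ F')] F') →* (F ≃ₐ[F₀] F) :=
    (AlgEquiv.restrictNormalHom F).comp (AlgEquiv.restrictScalarsHom F₀)
  have hc : ∀ τ x, algebraMap F F' (ρ τ x) = τ (algebraMap F F' x) := fun τ x =>
    AlgEquiv.restrictNormal_commutes (τ.restrictScalars F₀) F x
  have hρ : Function.Injective ρ := by
    rw [injective_iff_map_eq_one]
    intro τ hτ
    have h2 : ∀ x ∈ Algebra.adjoin F ({z} : Set F'), τ x = x := by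
      intro x hx
      induction hx using Algebra.adjoin_induction with
      | mem y hy =>
        rw [Set.mem_singleton_iff.1 hy]
        exact τ.commutes ⟨z, IntermediateField.subset_adjoin ℚ _ (Set.mem_singleton z)⟩
      | algebraMap y =>
        rw [← hc, hτ]
        rfl
      | add y y' _ _ hy hy' => rw [map_add, hy, hy']
      | mul y y' _ _ hy hy' => rw [map_mul, hy, hy']
    ext x
    refine h2 x ?_
    rw [IsCyclotomicExtension.adjoin_primitive_root_eq_top hz]
    exact Algebra.mem_top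
  have h1 := Subgroup.card_dvd_of_injective ρ hρ
  rw [IsGalois.card_aut_eq_finrank, IsGalois.card_aut_eq_finrank, hr] at h1
  obtain ⟨s, -, hs⟩ := (Nat.dvd_prime_pow (Fact.out : l.Prime)).1 h1
  exact ⟨s, hs⟩

theorem exists_cyc_up {l m M r : ℕ} [Fact l.Prime] (hmM : m ∣ M) (hM : M ≠ 0) {F : Type} [Field F]
    [NumberField F] (F₀ : IntermediateField ℚ F) [IsGalois ℚ F] (i : F₀ →+* CyclotomicField m ℚ)
    (hr : Module.finrank F₀ F = l ^ r) :
    ∃ (F' : Type) (_ : Field F') (_ : NumberField F') (_ : F →+* F')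
      (C' : IntermediateField ℚ F'), IsGalois ℚ F' ∧ IsCyclotomicExtension {M} ℚ C' ∧
      ∃ s : ℕ, Module.finrank C' F' = l ^ s := by
  have : NeZero M := ⟨hM⟩
  have : NumberField (CyclotomicField M F) := IsCyclotomicExtension.numberField {M} F _
  obtain ⟨C', h⟩ := Cq_core (l := l) (F' := CyclotomicField M F) hmM F₀ i hr
  exact ⟨CyclotomicField M F, inferInstance, inferInstance, algebraMap F _, C', h⟩

end H68TM
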