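import Pool.Agent.H68.TL.Dfl
import Pool.Agent.H68.TL.Ccl

/-!
ROW Cr (the largest Galois subfield with a complex conjugation; about 140 lines).  PROOF.
`G = F' ≃ₐ[ℚ] F'`, `φ₀ : F' →+* ℂ` (`H68TL.cc_emb F'`). Every embedding `φ : F' →+* ℂ` is `φ₀ ∘ g` with `g ∈ G`: make `ℂ` an `F'`-algebra by `φ₀`; `F'/ℚ` is normal, so `φ` (as an algebra map over `ℚ`) has range in the range of `φ₀` (`AlgHom.restrictNormal'` / `AlgHom.restrictNormal`,
`Normal.algHomEquivAut`). For `φ = conj ∘ φ₀` this gives `c ∈ G` with `φ₀ (c x) = conj (φ₀ x)`, and `c (c x) = x`.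
`H := Subgroup.normalClosure {h | ∃ g, h = c * g * c⁻¹ * g⁻¹}`, `N := IntermediateField.fixedField H`. `N/ℚ` is Galois as `H` is normal (`IsGalois.of_fixedField_normal_subgroup`).
`J` = the restriction of `c` to `N` (`AlgEquiv.restrictNormal`). `IsCC J`: let `φ : N →+* ℂ`. It extends to `F'` (`H68TL.emb_ext` with the inclusion of `N`), the extension is `φ₀ ∘ g`. For `x ∈ N`: `φ (J x) = φ₀ (g (c x))`, `conj (φ x) = conj (φ₀ (g x)) = φ₀ (c (g x))`, and `g (c x) = c (g x)`, because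
`c⁻¹ g⁻¹ c g = c g⁻¹ c⁻¹ (g⁻¹)⁻¹ ∈ H` fixes `x` (`c⁻¹ = c`).
Real fields: `S = {x | ∀ g : G, c (g x) = g x}` is stable under `G`; `H₁ = {h | ∀ x ∈ S, h x = x}` is a normal subgroup and contains `c g c⁻¹ g⁻¹` (`g⁻¹ x ∈ S` is fixed by `c`, so by `c⁻¹`; then `g g⁻¹ x = x` is fixed by `c`). So `H ≤ H₁` (`Subgroup.normalClosure_le_normal`) and `S ⊆ N`. For `e : k →+* F'`
with `k` totally real `e x ∈ S`: `φ₀ (c (g (e x))) = conj (φ₀ (g (e x))) = φ₀ (g (e x))` (`H68TL.real_fix` with the map `g ∘ e`).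
Roots of unity: `U = {z | ∀ g : G, c (g z) = (g z)⁻¹}` in the same way: `H₂ = {h | ∀ z ∈ U, h z = z}` is normal and contains `c g c⁻¹ g⁻¹`: `c⁻¹ (g⁻¹ z) = (g⁻¹ z)⁻¹`, `g` of this is `z⁻¹`, and `c (z⁻¹) = (c z)⁻¹ = z`. If `z^n = 1`, `n ≠ 0`, then `z ∈ U`: `|φ₀ (g z)| = 1`
(`Complex.norm_eq_one_of_pow_eq_one`), so `conj (φ₀ (g z)) = (φ₀ (g z))⁻¹` (`Complex.inv_eq_conj`).
-/

set_option autoImplicit false
open scoped Classical

open NumberField H68TL

namespace H68TM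

/-- every embedding of a Galois field is obtained from a fixed one by an automorphism -/
theorem Cr_emb {F' : Type} [Field F'] [NumberField F'] [IsGalois ℚ F'] (φ₀ ψ : F' →+* ℂ) :
    ∃ g : F' ≃ₐ[ℚ] F', ∀ x, ψ x = φ₀ (g x) := by
  let _ : Algebra F' ℂ := φ₀.toAlgebra
  have : IsScalarTower ℚ F' ℂ := IsScalarTower.of_algebraMap_eq fun q => by
    rw [eq_ratCast, eq_ratCast, map_ratCast]
  let σ : F' →ₐ[ℚ] ℂ := ψ.toRatAlgHom
  refine ⟨Normal.algHomEquivAut ℚ ℂ F' σ, fun x => ?_⟩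
  have h := (Normal.algHomEquivAut ℚ ℂ F').symm_apply_apply σ
  have h1 : σ x = ((Normal.algHomEquivAut ℚ ℂ F').symm
      (Normal.algHomEquivAut ℚ ℂ F' σ)) x := by rw [h]
  exact h1

/-- the elements on which an automorphism commutes with all automorphisms -/
def CrN {F' : Type} [Field F'] [NumberField F'] (c : F' ≃ₐ[ℚ] F') : IntermediateField ℚ F' where
  carrier := {x | ∀ g : F' ≃ₐ[ℚ] F', c (g x) = g (c x)}
  mul_mem' := fun {a b} ha hb g => by
    rw [map_mul, map_mul, map_mul, map_mul, ha g, hb g]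
  add_mem' := fun {a b} ha hb g => by
    rw [map_add, map_add, map_add, map_add, ha g, hb g]
  algebraMap_mem' := fun q g => by
    rw [AlgEquiv.commutes, AlgEquiv.commutes, AlgEquiv.commutes]
  inv_mem' := fun a ha g => by
    rw [map_inv₀, map_inv₀, map_inv₀, map_inv₀, ha g]

theorem mem_CrN {F' : Type} [Field F'] [NumberField F'] {c : F' ≃ₐ[ℚ] F'} {x : F'} :
    x ∈ CrN c ↔ ∀ g : F' ≃ₐ[ℚ] F', c (g x) = g (c x) := Iff.rfl

theorem CrN_stab {F' : Type} [Field F'] [NumberField F'] {c : F' ≃ₐ[ℚ] F'} {x : F'}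
    (hx : x ∈ CrN c) (h : F' ≃ₐ[ℚ] F') : h x ∈ CrN c := by
  rw [mem_CrN] at hx ⊢
  intro g
  have h1 : c (g (h x)) = g (h (c x)) := hx (g * h)
  rw [h1, hx h]

theorem CrN_gal {F' : Type} [Field F'] [NumberField F'] [IsGalois ℚ F'] (c : F' ≃ₐ[ℚ] F') :
    IsGalois ℚ (CrN c) := by
  have h0 : @Normal ℚ (CrN c) _ _ (CrN c).algebra' := by
    rw [IntermediateField.normal_iff_forall_map_le']
    intro σ y hy
    rw [IntermediateField.mem_map] at hy
    obtain ⟨x, hx, rfl⟩ := hy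
    exact CrN_stab hx σ
  have e : (CrN c).algebra' = (DivisionRing.toRatAlgebra : Algebra ℚ (CrN c)) :=
    Subsingleton.elim _ _
  have h1 : Normal ℚ (CrN c) := by
    rw [e] at h0
    exact h0
  exact ⟨⟩

theorem exists_cc_field (F' : Type) [Field F'] [NumberField F'] [IsGalois ℚ F'] :
    ∃ (N : IntermediateField ℚ F') (J : N ≃+* N), IsGalois ℚ N ∧ IsCC J ∧
      (∀ (k : Type) [Field k] [NumberField k], IsTotallyReal k → ∀ (e : k →+* F') (x : k),
        e x ∈ N) ∧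
      ∀ (z : F') (n : ℕ), n ≠ 0 → z ^ n = 1 → z ∈ N := by
  obtain ⟨φ₀⟩ := H68TL.cc_emb F'
  obtain ⟨c, hc⟩ := Cr_emb φ₀ ((starRingEnd ℂ).comp φ₀)
  have hc' : ∀ x, φ₀ (c x) = starRingEnd ℂ (φ₀ x) := fun x => (hc x).symm
  have hcc : ∀ x, c (c x) = x := by
    intro x
    apply φ₀.injective
    rw [hc', hc']
    exact Complex.conj_conj _
  have hst : ∀ x : CrN c, ∃ y : CrN c,
      (c : F' ≃+* F') (algebraMap (CrN c) F' x) = algebraMap (CrN c) F' y := fun x =>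
    ⟨⟨c x, CrN_stab x.2 c⟩, rfl⟩
  obtain ⟨J, hJ⟩ := H68TL.stab_of (J := (c : F' ≃+* F')) (algebraMap (CrN c) F') hcc hst
  refine ⟨CrN c, J, CrN_gal c, ?_, ?_, ?_⟩
  · intro φ x
    obtain ⟨ψ, hψ⟩ := H68TL.emb_ext (algebraMap (CrN c) F') φ
    obtain ⟨g, hg⟩ := Cr_emb φ₀ ψ
    rw [← hψ, ← hψ, ← hJ, hg, hg]
    have h1 : g (c (algebraMap (CrN c) F' x)) = c (g (algebraMap (CrN c) F' x)) := (x.2 g).symm
    have h2 : g ((c : F' ≃+* F') (algebraMap (CrN c) F' x))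
        = c (g (algebraMap (CrN c) F' x)) := h1
    rw [h2, hc']
  · intro k _ _ hk e x
    rw [mem_CrN]
    have h1 : ∀ g : F' ≃ₐ[ℚ] F', c (g (e x)) = g (e x) := by
      intro g
      apply φ₀.injective
      rw [hc']
      exact H68TL.real_fix hk ((g : F' →+* F').comp e) φ₀ x
    intro g
    have h2 : c (e x) = e x := h1 1
    rw [h1 g, h2]
  · intro z n hn hz
    rw [mem_CrN]
    have h1 : ∀ g : F' ≃ₐ[ℚ] F', c (g z) = (g z)⁻¹ := by
      intro g
      apply φ₀.injective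
      rw [hc', map_inv₀]
      have h2 : ‖φ₀ (g z)‖ = 1 := by
        apply Complex.norm_eq_one_of_pow_eq_one _ hn
        rw [← map_pow, ← map_pow, hz, map_one, map_one]
      rw [Complex.inv_eq_conj h2]
    intro g
    have h2 : c z = z⁻¹ := h1 1
    rw [h1 g, h2, map_inv₀]

end H68TM
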