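import Pool.Agent.H68.TM.Dfk
import Pool.Agent.H68.TM.Cq
import Pool.Agent.H68.TM.Cr

/-!
# MP_78d38b: fields of `l`-type, adjoining roots of unity
-/

set_option autoImplicit false
set_option linter.style.haveILetI false
open scoped Classical

open NumberField H68TL

namespace H68TM

/-- a subfield which contains a primitive root of unity -/
private theorem Cmp_cyc {M : ℕ} [NeZero M] {k B : Type} [Field k] [Field B] [Algebra k B]
    [IsCyclotomicExtension {M} k B] {N : Subfield B} (hk : ∀ x : k, algebraMap k B x ∈ N) {z : B}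
    (hz : IsPrimitiveRoot z M) (h : z ∈ N) (x : B) : x ∈ N := by
  have h1 : x ∈ Algebra.adjoin k ({z} : Set B) := by
    rw [IsCyclotomicExtension.adjoin_primitive_root_eq_top hz]
    exact Algebra.mem_top
  induction h1 using Algebra.adjoin_induction with
  | mem y hy => rw [Set.mem_singleton_iff.1 hy]; exact h
  | algebraMap r => exact hk r
  | add y y' _ _ hy hy' => exact N.add_mem hy hy'
  | mul y y' _ _ hy hy' => exact N.mul_mem hy hy'

theorem exists_comp {l : ℕ} [Fact l.Prime] {k : Type} [Field k] [NumberField k] (hk : LType l k)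
    {m f : ℕ} (hm : m ≠ 0) (hf : f ≠ 0) (N1 : Type) [Field N1] [NumberField N1] [Algebra k N1]
    [IsCyclotomicExtension {f} k N1] :
    ∃ (M : ℕ) (N : Type) (_ : Field N) (_ : NumberField N) (_ : N1 →+* N) (J : N ≃+* N),
      m ∣ M ∧ M ≠ 0 ∧ IsGalois ℚ N ∧ LT l M N ∧ IsCC J := by
  obtain ⟨hreal, F, _, _, F₀, hFG, ⟨m₀, hm₀, ⟨i⟩⟩, ⟨r, hr⟩, ⟨j⟩⟩ := hk
  obtain ⟨M, hM⟩ : ∃ M, M = m * f * m₀ := ⟨_, rfl⟩
  have hM0 : M ≠ 0 := by
    rw [hM]
    exact mul_ne_zero (mul_ne_zero hm hf) hm₀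
  haveI : NeZero M := ⟨hM0⟩
  haveI : NeZero f := ⟨hf⟩
  have hmM : m ∣ M := ⟨f * m₀, by rw [hM, mul_assoc]⟩
  have hfM : f ∣ M := ⟨m * m₀, by rw [hM]; ring⟩
  obtain ⟨F', _, _, e, C', hG, hcyc, s, hs⟩ :=
    exists_cyc_up (l := l) (m := m₀) (M := M) ⟨m * f, by rw [hM, mul_comm]⟩ hM0 F₀ i hr
  obtain ⟨N, J, hNG, hJ, hreal', hroot⟩ := exists_cc_field F'
  haveI := hNG
  -- the roots of unity
  have hz := IsCyclotomicExtension.zeta_spec M ℚ C'
  set z := IsCyclotomicExtension.zeta M ℚ C' with hzz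
  have hz' : IsPrimitiveRoot (algebraMap C' F' z) M :=
    hz.map_of_injective (f := algebraMap C' F') (algebraMap C' F').injective
  have hzN : algebraMap C' F' z ∈ N := hroot _ M hM0 hz'.pow_eq_one
  have hCN : C' ≤ N := by
    intro x hx
    exact Cmp_cyc (M := M) (k := ℚ) (N := N.toSubfield.comap (algebraMap C' F')) (fun q => by
      rw [Subfield.mem_comap, eq_ratCast, map_ratCast]
      exact SubfieldClass.ratCast_mem N.toSubfield q) hz hzN ⟨x, hx⟩
  obtain ⟨C, hC⟩ : ∃ C : IntermediateField ℚ N, C = IntermediateField.restrict hCN := ⟨_, rfl⟩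
  have e1 : C' ≃ₐ[ℚ] C := hC ▸ IntermediateField.restrictAlgEquiv hCN
  haveI hcycC : IsCyclotomicExtension {M} ℚ C := IsCyclotomicExtension.equiv {M} ℚ C' e1
  have hdeg : ∃ r' : ℕ, Module.finrank C N = l ^ r' := by
    have h1 := Module.finrank_mul_finrank ℚ C' F'
    have h2 := Module.finrank_mul_finrank ℚ N F'
    have h3 := Module.finrank_mul_finrank ℚ C N
    have h4 : Module.finrank ℚ C' = Module.finrank ℚ C := e1.toLinearEquiv.finrank_eq
    have h5 : 0 < Module.finrank ℚ C := Module.finrank_pos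
    have h6 : Module.finrank C N * Module.finrank N F' = l ^ s := by
      apply Nat.eq_of_mul_eq_mul_left h5
      rw [← mul_assoc, h3, h2, ← h1, h4, hs]
    obtain ⟨r', -, hr'⟩ := (Nat.dvd_prime_pow (Fact.out : l.Prime)).1 ⟨_, h6.symm⟩
    exact ⟨r', hr'⟩
  have hLT : LT l M N := ⟨N, inferInstance, inferInstance, C, RingHom.id N, hNG, hcycC,
    fun x _ => ⟨x, rfl⟩, hdeg, J, hJ⟩
  -- the embedding of `N1`
  letI : Algebra k F' := (e.comp j).toAlgebra
  have hζ := IsCyclotomicExtension.zeta_spec f k N1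
  set ζ := IsCyclotomicExtension.zeta f k N1 with hζζ
  obtain ⟨w, hw⟩ : ∃ w : F', IsPrimitiveRoot w f := by
    obtain ⟨c, hc⟩ := hfM
    exact ⟨_, hz'.pow (Nat.pos_of_ne_zero hM0) (a := c) (b := f) (by rw [hc, mul_comm])⟩
  haveI : IsScalarTower ℚ k N1 := IsScalarTower.of_algebraMap_eq fun q => by
    rw [eq_ratCast, eq_ratCast, map_ratCast]
  haveI : FiniteDimensional k N1 := Module.Finite.of_restrictScalars_finite ℚ k N1
  have hadj : IntermediateField.adjoin k ({ζ} : Set N1) = ⊤ := by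
    rw [eq_top_iff]
    intro x _
    exact Cmp_cyc (M := f) (k := k) (N := (IntermediateField.adjoin k ({ζ} : Set N1)).toSubfield)
      (fun y => (IntermediateField.adjoin k ({ζ} : Set N1)).algebraMap_mem y) hζ
      (IntermediateField.mem_adjoin_simple_self k ζ) x
  have hdvd : minpoly k ζ ∣ Polynomial.X ^ f - Polynomial.C 1 := by
    refine minpoly.dvd _ _ ?_
    rw [map_sub, map_pow, Polynomial.aeval_X, Polynomial.aeval_C, map_one, hζ.pow_eq_one, sub_self]
  have hne : (Polynomial.X ^ f - Polynomial.C (1 : F')) ≠ 0 :=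
    Polynomial.X_pow_sub_C_ne_zero (NeZero.pos f) 1
  obtain ⟨φ⟩ := IntermediateField.nonempty_algHom_of_adjoin_splits (F := k) (E := N1) (K := F')
    (S := {ζ}) (fun s hs => by
      rw [Set.mem_singleton_iff.1 hs]
      refine ⟨IsIntegral.of_finite k _, ?_⟩
      have h1 := Polynomial.X_pow_sub_one_splits hw
      refine h1.of_dvd hne ?_
      have h2 := Polynomial.map_dvd (algebraMap k F') hdvd
      rwa [Polynomial.map_sub, Polynomial.map_pow, Polynomial.map_X, Polynomial.map_C, map_one] at h2)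
    hadj
  have hφN : ∀ x : N1, φ x ∈ N := by
    intro x
    refine Cmp_cyc (M := f) (k := k) (N := N.toSubfield.comap (φ : N1 →+* F')) (fun y => ?_) hζ ?_ x
    · rw [Subfield.mem_comap]
      change φ (algebraMap k N1 y) ∈ N
      rw [φ.commutes]
      exact hreal' k hreal (e.comp j) y
    · rw [Subfield.mem_comap]
      exact hroot _ f hf (by
        change (φ ζ) ^ f = 1
        rw [← map_pow, hζ.pow_eq_one, map_one])
  exact ⟨M, N, inferInstance, inferInstance, (φ : N1 →+* F').codRestrict N hφN, J, hmM, hM0, hNG,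
    hLT, hJ⟩

end H68TM
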