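import Pool.Agent.H68.TK.Df
import Pool.Agent.H68.IM.Dec

/-!
# MP_78d38b: intermediate fields of `L = k L'` (after `decompose3`)
-/


set_option autoImplicit false

open IsDedekindDomain NumberField Pool.Agent.H10 H5SW H68QS

namespace H68TM

theorem decompose_l {k K L L' : Type} [Field k] [NumberField k] [Field K] [NumberField K]
    [Field L] [NumberField L] [Field L'] [NumberField L'] [Algebra k K] [Algebra k L] [Algebra K L]
    [IsScalarTower k K L] {p : ℕ} [Fact p.Prime] (h : L' →+* L) (hR : IsR p L')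
    (hgen : IntermediateField.adjoin k (Set.range h) = ⊤) :
    ∃ (K' : Type) (_ : Field K') (_ : NumberField K') (_ : Algebra K' L'),
      (∃ C : Comp k K' L' K L, ∀ x, C.f x = algebraMap k K x) ∧
      Module.finrank K' L' = Module.finrank K L ∧
      ∀ N : ℕ, p ^ (N + padicValNat p (Module.finrank ℚ k)) ∣ Module.finrank ℚ K →
        p ^ N ∣ Module.finrank ℚ K' := by
  have hp : p.Prime := Fact.out
  have hgal : IsGalois ℚ L' := H68IM.Dec_gal hR
  let hQ : L' →ₐ[ℚ] L := h.toRatAlgHom
  have hQh : ∀ x, hQ x = h x := fun x => rfl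
  set Z : IntermediateField ℚ L := hQ.fieldRange with hZ
  have hZgal : @IsGalois ℚ _ Z _ (IntermediateField.algebra' Z) :=
    IsGalois.of_algEquiv hQ.equivFieldRange
  let ψK : K →ₐ[ℚ] L := IsScalarTower.toAlgHom ℚ K L
  let ψk : k →ₐ[ℚ] L := IsScalarTower.toAlgHom ℚ k L
  have cL : ∀ x : k, ψK (algebraMap k K x) = algebraMap k L x := fun x =>
    (IsScalarTower.algebraMap_apply k K L x).symm
  set SK : Set K := Set.range (algebraMap k K) with hSK
  have memZ : ∀ x : L', h x ∈ Z := fun x => ⟨x, rfl⟩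
  have hK : Z ⊔ (IntermediateField.adjoin ℚ SK).map ψK = ⊤ := by
    refine H68IM.Dec_top (k := k) h hgen _ (fun x => (le_sup_left : Z ≤ _) (memZ x)) fun x => ?_
    refine (le_sup_right : (IntermediateField.adjoin ℚ SK).map ψK ≤ _) ?_
    exact ⟨_, IntermediateField.subset_adjoin ℚ _ ⟨x, rfl⟩, cL x⟩
  have hk' : Z ⊔ ψk.fieldRange = ⊤ := by
    refine H68IM.Dec_top (k := k) h hgen _ (fun x => (le_sup_left : Z ≤ _) (memZ x)) fun x => ?_
    exact (le_sup_right : ψk.fieldRange ≤ _) ⟨x, rfl⟩
  have hK' : Z ⊔ ψK.fieldRange = ⊤ := by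
    rw [eq_top_iff, ← hK]
    refine sup_le_sup_left ?_ Z
    rintro x ⟨y, -, rfl⟩
    exact ⟨y, rfl⟩
  have gK := H68QS.Dec_gen ψK Z SK hK
  have dK := H68QS.Dec_deg ψK Z hK'
  have dk := H68QS.Dec_deg ψk Z hk'
  have zpos : 0 < Module.finrank ℚ Z := Module.finrank_pos
  have lpos : 0 < Module.finrank ℚ L := Module.finrank_pos
  have Kpos : 0 < Module.finrank ℚ K := Module.finrank_pos
  have K'pos : 0 < Module.finrank ℚ (Z.comap ψK) := Module.finrank_pos
  have zeq : Module.finrank ℚ L' = Module.finrank ℚ Z :=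
    hQ.equivFieldRange.toLinearEquiv.finrank_eq
  let i : (Z.comap ψK) →+* L' := (hQ.equivFieldRange.symm : Z ≃ₐ[ℚ] L').toRingEquiv.toRingHom.comp
    { toFun := fun x => (⟨ψK x.1, x.2⟩ : Z)
      map_one' := by ext; simp
      map_zero' := by ext; simp
      map_mul' := by intro x y; ext; simp
      map_add' := by intro x y; ext; simp }
  have hi : ∀ x, h (i x) = algebraMap K L x.1 := by
    intro x
    have h1 : hQ.equivFieldRange (i x) = (⟨ψK x.1, x.2⟩ : Z) :=
      hQ.equivFieldRange.apply_symm_apply _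
    have h2 := congrArg Subtype.val h1
    exact h2
  let alg : Algebra (Z.comap ψK) L' := i.toAlgebra
  refine ⟨Z.comap ψK, inferInstance, inferInstance, alg, ⟨?_, ?_⟩, ?_, ?_⟩
  · refine
      { f := algebraMap k K
        g := (Z.comap ψK).val.toRingHom
        h := h
        comm := fun x => hi x
        genK := ?_
        genL := ?_ }
    · have e : Set.range ((Z.comap ψK).val.toRingHom) = (Z.comap ψK : Set K) := Subtype.range_coe
      rw [e]
      exact gK
    · refine H68IM.Dec_top (k := k) h hgen _ (fun x => ?_) fun x => ?_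
      · exact IntermediateField.subset_adjoin ℚ _ (Or.inr ⟨x, rfl⟩)
      · exact IntermediateField.subset_adjoin ℚ _ (Or.inl ⟨x, cL x⟩)
  · intro x
    rfl
  · have t1 := Module.finrank_mul_finrank ℚ K L
    have : IsScalarTower ℚ (Z.comap ψK) L' :=
      IsScalarTower.of_algebraMap_eq' (Subsingleton.elim _ _)
    have t2 := Module.finrank_mul_finrank ℚ (Z.comap ψK) L'
    have h1 : Module.finrank ℚ K * Module.finrank ℚ (Z.comap ψK) *
        Module.finrank (Z.comap ψK) L' =
        Module.finrank ℚ K * Module.finrank ℚ (Z.comap ψK) * Module.finrank K L := by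
      calc _ = Module.finrank ℚ K * (Module.finrank ℚ (Z.comap ψK) *
            Module.finrank (Z.comap ψK) L') := by ring
        _ = Module.finrank ℚ L * Module.finrank ℚ (Z.comap ψK) := by rw [t2, zeq, dK]
        _ = _ := by rw [← t1]; ring
    exact Nat.eq_of_mul_eq_mul_left (Nat.mul_pos Kpos K'pos) h1
  · intro N hN
    have h1 : Module.finrank ℚ K * Module.finrank ℚ (Z.comap ψk) =
        Module.finrank ℚ (Z.comap ψK) * Module.finrank ℚ k := by
      apply Nat.eq_of_mul_eq_mul_left (Nat.mul_pos lpos zpos)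
      calc _ = (Module.finrank ℚ K * Module.finrank ℚ Z) *
            (Module.finrank ℚ L * Module.finrank ℚ (Z.comap ψk)) := by ring
        _ = _ := by rw [← dK, dk]; ring
    have kpos : 0 < Module.finrank ℚ k := Module.finrank_pos
    have h2 : p ^ (N + padicValNat p (Module.finrank ℚ k)) ∣
        Module.finrank ℚ (Z.comap ψK) * Module.finrank ℚ k := by
      rw [← h1]
      exact hN.mul_right _
    rw [padicValNat_dvd_iff_le (Nat.mul_pos K'pos kpos).ne',
      padicValNat.mul K'pos.ne' kpos.ne'] at h2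
    rw [padicValNat_dvd_iff_le K'pos.ne']
    omega

end H68TM
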