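import Pool.Agent.H68.QS.Df

/-!
ROW Cps (construction of the composita `Km = N K`, `F = N L`; about 150 lines).  PROOF.
`Ω = AlgebraicClosure N`. Make `L` a `k`-algebra by `(algebraMap K L).comp C.f` and `Ω` a `k`-algebra by `(algebraMap N Ω).comp (algebraMap k N)` (`RingHom.toAlgebra`). `L/k` is algebraic (`L` is finite over `ℚ`: `Algebra.IsAlgebraic.of_finite` / `Module.Finite.of_restrictScalars_finite ℚ k L` with
`IsScalarTower ℚ k L` from `IsScalarTower.of_algebraMap_eq'` (`Subsingleton.elim`)). `ι : L →ₐ[k] Ω := IsAlgClosed.lift`. So `ι (algebraMap K L (C.f x)) = algebraMap N Ω (algebraMap k N x)`.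
`F := IntermediateField.adjoin N (Set.range ι)`, `Km := IntermediateField.adjoin N (Set.range (ι ∘ algebraMap K L))`, `Km ≤ F` (`IntermediateField.adjoin.mono`). `F` is finite over `N`: it is generated by the images of a `ℚ`-basis of `L` (`Module.finBasis ℚ L`; `IntermediateField.finiteDimensional_adjoin`
for a finite set of integral elements; the range of `ι` is in the field generated by the images of the basis, as in `Pool/Agent/H2/T4/LA.lean` for `hιN`), so a number field (`FiniteDimensional ℚ F` by `Module.Finite.trans N F`, characteristic zero), and `Km` similarly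
(`IntermediateField.finiteDimensional_of_le` or a basis of `K`). Algebra structures: `Km → F`: `(IntermediateField.inclusion hle).toRingHom.toAlgebra`; `L → F`: `(ι.toRingHom.codRestrict F ..).toAlgebra`; `K → Km`: `((ι.toRingHom.comp (algebraMap K L)).codRestrict Km ..).toAlgebra`; `K → F` the composite.
The scalar towers by `IsScalarTower.of_algebraMap_eq` (all by `rfl` or `Subtype.ext rfl`). `C2.f := algebraMap N Km`, `C2.g := (algebraMap K Km).comp C.g`, `C2.h := (algebraMap L F).comp C.h`; `comm` by `C.comm`. `genK`: let `M` be the field generated over `ℚ` by the two ranges;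
show that each element of `Km` is in `M`: the subfield of the `y ∈ Ω` which are the values of elements of `M` contains `N` and `ι (algebraMap K L x)` for `x ∈ K` (`K` is generated by `C.f k` and `C.g K'`, `C.genK`; `ι (algebraMap K L (C.f x)) ∈ N`), so `Km`. See `H68IM.gen_mem`, `H68IM.adj_top`, `H68IM.adj_le` in
`Pool/Agent/H68/IM/Sub.lean` and `sub_pair'` there for a model. `genL` in the same way with `C.genL`.
-/

set_option autoImplicit false
open scoped Classical

open NumberField H68QS

namespace H68TM

private theorem Cps_iota {k L N : Type} [Field k] [NumberField k] [Field L] [NumberField L]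
    [Field N] [NumberField N] [Algebra k N] (φ : k →+* L) :
    ∃ ι : L →+* AlgebraicClosure N, ∀ x : k,
      ι (φ x) = algebraMap N (AlgebraicClosure N) (algebraMap k N x) := by
  let _ : Algebra k L := φ.toAlgebra
  have hT : IsScalarTower ℚ k L := IsScalarTower.of_algebraMap_eq' (Subsingleton.elim _ _)
  have hf : FiniteDimensional k L := Module.Finite.of_restrictScalars_finite ℚ k L
  have ha : Algebra.IsAlgebraic k L := Algebra.IsAlgebraic.of_finite k L
  let ι : L →ₐ[k] AlgebraicClosure N := IsAlgClosed.lift
  refine ⟨ι.toRingHom, fun x => ?_⟩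
  rw [← IsScalarTower.algebraMap_apply]
  exact ι.commutes x

private theorem Cps_fin {L N : Type} [Field L] [NumberField L] [Field N] [NumberField N]
    (ι : L →+* AlgebraicClosure N) :
    FiniteDimensional N (IntermediateField.adjoin N (Set.range ι)) := by
  have h1 : FiniteDimensional N (IntermediateField.adjoin N
      (Set.range (fun i => ι (Module.finBasis ℚ L i)))) :=
    IntermediateField.finiteDimensional_adjoin (fun x _ => Algebra.IsIntegral.isIntegral x)
  have h2 : IntermediateField.adjoin N (Set.range ι) ≤ IntermediateField.adjoin N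
      (Set.range (fun i => ι (Module.finBasis ℚ L i))) := by
    rw [IntermediateField.adjoin_le_iff]
    rintro _ ⟨x, rfl⟩
    have e1 : x = ∑ i, ((Module.finBasis ℚ L).repr x i : L) * Module.finBasis ℚ L i := by
      refine Eq.trans ((Module.finBasis ℚ L).sum_repr x).symm ?_
      refine Finset.sum_congr rfl (fun i _ => ?_)
      rw [Algebra.smul_def, eq_ratCast]
    rw [e1, map_sum]
    refine sum_mem (fun i _ => ?_)
    rw [map_mul, map_ratCast]
    exact mul_mem (SubfieldClass.ratCast_mem _ _) (IntermediateField.subset_adjoin _ _ ⟨i, rfl⟩)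
  exact Module.Finite.of_injective (IntermediateField.inclusion h2).toLinearMap
    (IntermediateField.inclusion h2).injective

private theorem Cps_le {B F : Type} [Field B] [Field F] [Algebra B F] (S : Set F)
    (M : Subfield F) (hB : ∀ b : B, algebraMap B F b ∈ M) (h : S ⊆ M) :
    ∀ x ∈ IntermediateField.adjoin B S, x ∈ M := by
  intro x hx
  have h1 : IntermediateField.adjoin B S ≤ M.toIntermediateField hB :=
    IntermediateField.adjoin_le_iff.2 h
  exact h1 hx

private theorem Cps_gen {B F : Type} [Field B] [Field F] [Algebra B F] {S : Set F}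
    (hS : IntermediateField.adjoin B S = ⊤) (M : Subfield F)
    (hB : ∀ b : B, algebraMap B F b ∈ M) (h : S ⊆ M) (x : F) : x ∈ M :=
  Cps_le S M hB h x (by rw [hS]; exact IntermediateField.mem_top)

private theorem Cps_top {B F : Type} [Field B] [Field F] [Algebra B F] {S : Set F}
    (h : ∀ M : Subfield F, S ⊆ M → ∀ x, x ∈ M) :
    IntermediateField.adjoin B S = ⊤ := by
  rw [eq_top_iff]
  intro x _
  exact h (IntermediateField.adjoin B S).toSubfield (IntermediateField.subset_adjoin B S) x

private theorem Cps_rat {F : Type} [Field F] [Algebra ℚ F] (M : Subfield F) (q : ℚ) :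
    algebraMap ℚ F q ∈ M := by
  rw [eq_ratCast]
  exact SubfieldClass.ratCast_mem M q

/-- generation -/
private theorem Cps_key {k N L E : Type} [Field k] [Field N] [NumberField N] [Field L] [Field E]
    [Algebra k N] [Algebra ℚ L] (ι : L →+* AlgebraicClosure N) (φ : k →+* L) (g : E →+* L)
    (hι : ∀ x : k, ι (φ x) = algebraMap N (AlgebraicClosure N) (algebraMap k N x))
    (hgen : IntermediateField.adjoin ℚ (Set.range φ ∪ Set.range g) = ⊤)
    (M : Subfield (IntermediateField.adjoin N (Set.range ι)))
    (hM : ∀ n : N, algebraMap N (IntermediateField.adjoin N (Set.range ι)) n ∈ M)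
    (hM' : ∀ e : E, (⟨ι (g e), IntermediateField.subset_adjoin _ _ ⟨g e, rfl⟩⟩ :
      IntermediateField.adjoin N (Set.range ι)) ∈ M) :
    ∀ x, x ∈ M := by
  intro x
  have h1 : ∀ y : L, ι y ∈ M.map (algebraMap (IntermediateField.adjoin N (Set.range ι))
      (AlgebraicClosure N)) := by
    intro y
    refine Cps_gen hgen ((M.map (algebraMap (IntermediateField.adjoin N (Set.range ι))
      (AlgebraicClosure N))).comap ι) (Cps_rat _) ?_ y
    rintro _ (⟨z, rfl⟩ | ⟨z, rfl⟩)
    · refine ⟨algebraMap N _ (algebraMap k N z), hM _, ?_⟩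
      rw [hι]
      rfl
    · exact ⟨_, hM' z, rfl⟩
  obtain ⟨y, hy, hyx⟩ := Cps_le (Set.range ι)
    (M.map (algebraMap (IntermediateField.adjoin N (Set.range ι)) (AlgebraicClosure N)))
    (fun n => ⟨algebraMap N _ n, hM n, rfl⟩) (by
      rintro _ ⟨z, rfl⟩
      exact h1 z) x x.2
  have h2 : y = x := Subtype.ext hyx
  rw [← h2]
  exact hy

theorem exists_big {k N K' L' K L : Type} [Field k] [NumberField k] [Field N] [NumberField N]
    [Field K'] [NumberField K'] [Field L'] [NumberField L'] [Field K] [NumberField K] [Field L]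
    [NumberField L] [Algebra k N] [Algebra K' L'] [Algebra K L] (C : Comp k K' L' K L) :
    ∃ (Km F : Type) (_ : Field Km) (_ : NumberField Km) (_ : Field F) (_ : NumberField F)
      (_ : Algebra K Km) (_ : Algebra Km F) (_ : Algebra K F) (_ : IsScalarTower K Km F)
      (_ : Algebra L F) (_ : IsScalarTower K L F) (C2 : Comp N K' L' Km F),
      (∀ x : k, C2.f (algebraMap k N x) = algebraMap K Km (C.f x)) ∧
      (∀ x : K', C2.g x = algebraMap K Km (C.g x)) ∧
      ∀ x : L', C2.h x = algebraMap L F (C.h x) := by
  obtain ⟨ι, hι⟩ := Cps_iota (k := k) (L := L) (N := N) ((algebraMap K L).comp C.f)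
  obtain ⟨κ, hκ⟩ : ∃ κ : K →+* AlgebraicClosure N, κ = ι.comp (algebraMap K L) := ⟨_, rfl⟩
  have hκ' : ∀ x : K, κ x = ι (algebraMap K L x) := fun x => by rw [hκ]; rfl
  have hle : IntermediateField.adjoin N (Set.range κ) ≤ IntermediateField.adjoin N (Set.range ι) := by
    refine IntermediateField.adjoin.mono _ _ _ ?_
    rintro _ ⟨x, rfl⟩
    exact ⟨algebraMap K L x, (hκ' x).symm⟩
  have hfK : FiniteDimensional N (IntermediateField.adjoin N (Set.range κ)) := Cps_fin κ
  have hfL : FiniteDimensional N (IntermediateField.adjoin N (Set.range ι)) := Cps_fin ι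
  have hnK : NumberField (IntermediateField.adjoin N (Set.range κ)) := NumberField.of_module_finite N _
  have hnL : NumberField (IntermediateField.adjoin N (Set.range ι)) := NumberField.of_module_finite N _
  let φK : K →+* IntermediateField.adjoin N (Set.range κ) :=
    { toFun := fun x => ⟨κ x, IntermediateField.subset_adjoin _ _ ⟨x, rfl⟩⟩
      map_one' := Subtype.ext (map_one κ)
      map_mul' := fun x y => Subtype.ext (map_mul κ _ _)
      map_zero' := Subtype.ext (map_zero κ)
      map_add' := fun x y => Subtype.ext (map_add κ _ _) }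
  let φL : L →+* IntermediateField.adjoin N (Set.range ι) :=
    { toFun := fun x => ⟨ι x, IntermediateField.subset_adjoin _ _ ⟨x, rfl⟩⟩
      map_one' := Subtype.ext (map_one ι)
      map_mul' := fun x y => Subtype.ext (map_mul ι _ _)
      map_zero' := Subtype.ext (map_zero ι)
      map_add' := fun x y => Subtype.ext (map_add ι _ _) }
  let ψ : IntermediateField.adjoin N (Set.range κ) →+* IntermediateField.adjoin N (Set.range ι) :=
    (IntermediateField.inclusion hle).toRingHom
  let a1 : Algebra K (IntermediateField.adjoin N (Set.range κ)) := φK.toAlgebra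
  let a2 : Algebra (IntermediateField.adjoin N (Set.range κ))
    (IntermediateField.adjoin N (Set.range ι)) := ψ.toAlgebra
  let a3 : Algebra K (IntermediateField.adjoin N (Set.range ι)) := (ψ.comp φK).toAlgebra
  let a4 : Algebra L (IntermediateField.adjoin N (Set.range ι)) := φL.toAlgebra
  have hcomm : ∀ x, φL.comp C.h (algebraMap K' L' x) = ψ (φK.comp C.g x) := by
    intro x
    apply Subtype.ext
    show ι (C.h (algebraMap K' L' x)) = κ (C.g x)
    rw [C.comm, hκ']
  refine ⟨IntermediateField.adjoin N (Set.range κ), IntermediateField.adjoin N (Set.range ι),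
    inferInstance, hnK, inferInstance, hnL, a1, a2, a3,
    IsScalarTower.of_algebraMap_eq (fun x => rfl), a4,
    IsScalarTower.of_algebraMap_eq (fun x => Subtype.ext (hκ' x)),
    ⟨algebraMap N _, φK.comp C.g, φL.comp C.h, hcomm, ?_, ?_⟩, ?_, fun x => rfl, fun x => rfl⟩
  · refine Cps_top fun M hM => ?_
    exact Cps_key κ C.f C.g (fun x => by rw [hκ']; exact hι x) C.genK M
      (fun n => hM (Or.inl ⟨n, rfl⟩)) (fun e => hM (Or.inr ⟨e, rfl⟩))
  · refine Cps_top fun M hM => ?_
    exact Cps_key ι ((algebraMap K L).comp C.f) C.h hι C.genL M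
      (fun n => hM (Or.inl ⟨n, rfl⟩)) (fun e => hM (Or.inr ⟨e, rfl⟩))
  · intro x
    apply Subtype.ext
    show algebraMap N (AlgebraicClosure N) (algebraMap k N x) = κ (C.f x)
    rw [hκ']
    exact (hι x).symm

end H68TM
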