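import Pool.Agent.H68.IM.Dec
import Pool.Agent.H68.QS.Df

/-!
ROW Cyr (cyclic Galois group of a real field of `p`-power conductor, and a lemma on cyclic groups; about 90 lines).  PROOF.
(1) `cyc_of_isR`: `hL.2` gives `n` and an embedding `j : L' →+* CyclotomicField (p^(n+1)) ℚ =: C`. `C/ℚ` is Galois with group isomorphic to `(ZMod (p^(n+1)))ˣ` (`IsCyclotomicExtension.autEquivPow` with `Polynomial.cyclotomic.irreducible_rat`, or
`IsCyclotomicExtension.Rat.galEquivZMod`), which is cyclic for odd `p` (`ZMod.isCyclic_units_of_prime_pow` or similar name). With `Algebra L' C := j.toAlgebra`, `L'/ℚ` is normal (`H68IM.Dec_gal hL`), so `AlgEquiv.restrictNormalHom L' : (C ≃ₐ[ℚ] C) →* (L' ≃ₐ[ℚ] L')`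
is surjective (`AlgEquiv.restrictNormalHom_surjective`), and the image of a cyclic group is cyclic (`isCyclic_of_surjective`).
(2) `cyc_le`: let `Q` be a finite cyclic group, `S`, `R` subgroups, `|S| = p^i`, `v_p (index R) ≤ v_p (index S)`. `|Q| = |S| [Q:S] = |R| [Q:R]`, so `i + v_p [Q:S] = v_p |R| + v_p [Q:R]`, so `i ≤ v_p |R|` and `p^i ∣ |R|`. `s ∈ S`: `s^(p^i) = 1`, so
`s^|R| = 1`. In a cyclic group the elements `x` with `x^|R| = 1` are at most `|R|` in number (`IsCyclic.card_pow_eq_one_le`), and all elements of `R` are such, so `s ∈ R` (`Finset.eq_of_subset_of_card_le`).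
-/

set_option autoImplicit false
open scoped Classical

open NumberField H5SW H68QS

namespace H68TM

theorem cyc_of_isR {p : ℕ} [Fact p.Prime] (hp2 : p ≠ 2) {L' : Type} [Field L'] [NumberField L']
    (hL : IsR p L') : IsCyclic (L' ≃ₐ[ℚ] L') := by
  have hp : p.Prime := Fact.out
  have hgal : IsGalois ℚ L' := H68IM.Dec_gal hL
  obtain ⟨-, n, ⟨j⟩⟩ := hL
  have hne : NeZero (p ^ (n + 1)) := ⟨pow_ne_zero _ hp.ne_zero⟩
  have hcyc : IsCyclotomicExtension {p ^ (n + 1)} ℚ (CyclotomicField (p ^ (n + 1)) ℚ) :=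
    CyclotomicField.isCyclotomicExtension _ _
  have hG : IsGalois ℚ (CyclotomicField (p ^ (n + 1)) ℚ) :=
    IsCyclotomicExtension.isGalois {p ^ (n + 1)} ℚ _
  have h1 : IsCyclic (ZMod (p ^ (n + 1)))ˣ := ZMod.isCyclic_units_of_prime_pow p hp hp2 (n + 1)
  let e := IsCyclotomicExtension.autEquivPow (CyclotomicField (p ^ (n + 1)) ℚ)
    (Polynomial.cyclotomic.irreducible_rat (Nat.pos_of_ne_zero hne.out))
  have h2 : IsCyclic (CyclotomicField (p ^ (n + 1)) ℚ ≃ₐ[ℚ] CyclotomicField (p ^ (n + 1)) ℚ) :=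
    isCyclic_of_surjective e.symm e.symm.surjective
  let _ : Algebra L' (CyclotomicField (p ^ (n + 1)) ℚ) := j.toAlgebra
  have hst : IsScalarTower ℚ L' (CyclotomicField (p ^ (n + 1)) ℚ) :=
    IsScalarTower.of_algebraMap_eq' (Subsingleton.elim _ _)
  exact isCyclic_of_surjective (AlgEquiv.restrictNormalHom L' :
    (CyclotomicField (p ^ (n + 1)) ℚ ≃ₐ[ℚ] CyclotomicField (p ^ (n + 1)) ℚ) →* (L' ≃ₐ[ℚ] L'))
    (AlgEquiv.restrictNormalHom_surjective _)

theorem cyc_le {p i : ℕ} [Fact p.Prime] {Q : Type} [Group Q] [Finite Q] [IsCyclic Q]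
    (S R : Subgroup Q) (hS : Nat.card S = p ^ i)
    (h : padicValNat p R.index ≤ padicValNat p S.index) : S ≤ R := by
  have hp : p.Prime := Fact.out
  have hR0 : Nat.card R ≠ 0 := Nat.card_pos.ne'
  have hS0 : Nat.card S ≠ 0 := Nat.card_pos.ne'
  have hRi : R.index ≠ 0 := Subgroup.index_ne_zero_of_finite
  have hSi : S.index ≠ 0 := Subgroup.index_ne_zero_of_finite
  have h1 := S.card_mul_index
  have h2 := R.card_mul_index
  have h3 : padicValNat p (Nat.card S) + padicValNat p S.index =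
      padicValNat p (Nat.card R) + padicValNat p R.index := by
    rw [← padicValNat.mul hS0 hSi, ← padicValNat.mul hR0 hRi, h1, h2]
  rw [hS, padicValNat.prime_pow] at h3
  have h4 : p ^ i ∣ Nat.card R := by
    rw [padicValNat_dvd_iff_le hR0]
    omega
  intro s hs
  have h5 : s ^ (p ^ i) = 1 := by
    have h6 : (⟨s, hs⟩ : S) ^ Nat.card S = 1 := pow_card_eq_one'
    rw [hS] at h6
    exact congrArg Subtype.val h6
  have h7 : s ^ Nat.card R = 1 := by
    obtain ⟨c, hc⟩ := h4
    rw [hc, pow_mul, h5, one_pow]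
  let _ : Fintype Q := Fintype.ofFinite Q
  have h8 := IsCyclic.card_pow_eq_one_le (α := Q) (Nat.pos_of_ne_zero hR0)
  have h9 : (R : Set Q).toFinset ⊆ Finset.univ.filter (fun a : Q => a ^ Nat.card R = 1) := by
    intro x hx
    rw [Set.mem_toFinset] at hx
    rw [Finset.mem_filter]
    refine ⟨Finset.mem_univ _, ?_⟩
    have h6 : (⟨x, hx⟩ : R) ^ Nat.card R = 1 := pow_card_eq_one'
    exact congrArg Subtype.val h6
  have h10 : (R : Set Q).toFinset = Finset.univ.filter (fun a : Q => a ^ Nat.card R = 1) := by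
    refine Finset.eq_of_subset_of_card_le h9 (h8.trans ?_)
    rw [Set.toFinset_card, ← Nat.card_eq_fintype_card]
    exact le_rfl
  have h11 : s ∈ (R : Set Q).toFinset := by
    rw [h10, Finset.mem_filter]
    exact ⟨Finset.mem_univ _, h7⟩
  rw [Set.mem_toFinset] at h11
  exact h11

end H68TM
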