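import Pool.Agent.H68.IM.Dec
import Pool.Agent.H68.IM.Sub
import Pool.Agent.H68.TM.Cyr
import Pool.Agent.H68.QS.Gal

/-!
ROW Gal (Galois groups of the compositum `F = N L'`; about 170 lines).  PROOF.
Notation: `ν = (algebraMap Km F) ∘ C2.f : N →+* F`; `H68IM.gen_mem C2.genL M ..` shows that a subfield `M` of `F` which contains `ν N` and `C2.h L'` is everything (see `Bsg_genL` and `Bsg_genK` in `Pool/Agent/H68/TL/Bsg.lean`: copy them).
(1) `galF`: `L'/ℚ` is Galois (`H68IM.Dec_gal hL`), `N/ℚ` is Galois; the images `ν.toRatAlgHom.fieldRange`, `C2.h.toRatAlgHom.fieldRange` are normal over `ℚ` (`AlgHom.equivFieldRange`, `Normal.of_algEquiv`), their sup is `⊤` and is normal (`IntermediateField.normal_sup`), `⊤` is isomorphic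
to `F` (`IntermediateField.topEquiv`); separable since characteristic zero.
(2) `galL`: see `Bsg_galL` in `Pool/Agent/H68/TL/Bsg.lean` (works for every `B`): `L/K` is Galois as `L = K L'` and `L'/K'` is Galois (`H68QS.galois_up`), restriction `Gal(L/K) → Gal(L'/K')` is injective, so `[L : K]` divides `[L' : K'] = p^i`.
(3) `exists_up`: `F/ℚ` is Galois by (1). `L'` is an algebra in `F` by `C2.h`; `π = AlgEquiv.restrictNormalHom L' : (F ≃ₐ[ℚ] F) →* (L' ≃ₐ[ℚ] L')` is surjective. `A = {g | g (ν x) = ν x for all x}`: `ν.toRatAlgHom.fieldRange.fixingSubgroup`, of index `[N : ℚ]`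
(`IntermediateField.finrank_eq_fixingSubgroup_index` or `IsGalois.card_fixingSubgroup_eq_finrank` and `Subgroup.card_mul_index`). `R = A.map π`: its index divides the index of `A` (`Subgroup.index_map_dvd`), so `v_p (index R) ≤ v_p [N : ℚ]`. `S` = the subgroup of `L' ≃ₐ[ℚ] L'` of the
elements fixing the image of `K'` (`(AlgHom.fieldRange ..).fixingSubgroup`), of order `[L' : K'] = p^i` and index `[K' : ℚ]`. `cyc_le` gives `S ≤ R`: `t ∈ S` is `π g`, `g ∈ A`. `g` fixes the image of `Km`: `Km` is generated by `C2.f N` and `C2.g K'` (`C2.genK`), `g (ν x) = ν x` and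
`g (algebraMap Km F (C2.g x)) = g (C2.h (algebraMap K' L' x)) = C2.h (t (algebraMap K' L' x)) = C2.h (algebraMap K' L' x)` (`C2.comm`). So `g` is an automorphism over `Km` (`AlgEquiv.ofRingEquiv`).
(4) `exists_gen`: `Gal(F/Km) → Gal(L'/K')` (restriction, as in (2)) is injective; `Gal(L'/K')` embeds in the cyclic group `Gal(L'/ℚ)` (`cyc_of_isR`, `AlgEquiv.restrictScalarsHom`), so `Gal(F/Km)` is cyclic (`isCyclic_of_injective`), and finite: `IsCyclic.exists_generator`, powers with natural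
exponents (`mem_powers_iff_mem_zpowers`).
-/

set_option autoImplicit false
set_option linter.style.haveILetI false
open scoped Classical

open NumberField H5SW H68QS

namespace H68TM

variable {p : ℕ} [Fact p.Prime] {N K' L' Km F : Type} [Field N] [NumberField N] [Field K']
  [NumberField K'] [Field L'] [NumberField L'] [Field Km] [NumberField Km] [Field F]
  [NumberField F] [Algebra K' L'] [Algebra Km F] (C2 : Comp N K' L' Km F)

/-- a subfield of `F` which contains the images of `N` and `L'` is everything -/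
theorem Gal_genL {N K' L' Km F : Type} [Field N] [Field K'] [Field L'] [Field Km] [NumberField Km]
    [Field F] [NumberField F] [Algebra K' L'] [Algebra Km F] (C2 : Comp N K' L' Km F)
    (M : Subfield F) (h1 : ∀ b, algebraMap Km F (C2.f b) ∈ M) (h2 : ∀ y, C2.h y ∈ M) (x : F) :
    x ∈ M := by
  refine H68IM.gen_mem C2.genL M (fun q => ?_) ?_ x
  · rw [eq_ratCast (algebraMap ℚ F) q]
    exact SubfieldClass.ratCast_mem M q
  · rintro _ (⟨b, rfl⟩ | ⟨y, rfl⟩)
    · exact h1 b
    · exact h2 y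

theorem Gal_genK {N K' L' Km F : Type} [Field N] [Field K'] [Field L'] [Field Km] [NumberField Km]
    [Field F] [NumberField F] [Algebra K' L'] [Algebra Km F] (C2 : Comp N K' L' Km F)
    (M : Subfield Km) (h1 : ∀ b, C2.f b ∈ M) (h2 : ∀ y, C2.g y ∈ M) (x : Km) : x ∈ M := by
  refine H68IM.gen_mem C2.genK M (fun q => ?_) ?_ x
  · rw [eq_ratCast (algebraMap ℚ Km) q]
    exact SubfieldClass.ratCast_mem M q
  · rintro _ (⟨b, rfl⟩ | ⟨y, rfl⟩)
    · exact h1 b
    · exact h2 y

theorem Gal_nm {k N L F : Type} [Field k] [Field N] [Field L] [Field F] [Algebra k N] [Algebra k L]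
    [Algebra k F] [Normal k N] [Normal k L] (ν : N →ₐ[k] F) (η : L →ₐ[k] F)
    (h : ν.fieldRange ⊔ η.fieldRange = ⊤) : Normal k F := by
  haveI h1 : Normal k ν.fieldRange := Normal.of_algEquiv ν.equivFieldRange
  haveI h2 : Normal k η.fieldRange := Normal.of_algEquiv η.equivFieldRange
  haveI h3 : Normal k (ν.fieldRange ⊔ η.fieldRange : IntermediateField k F) :=
    IntermediateField.normal_sup k F _ _
  rw [h] at h3
  exact Normal.of_algEquiv IntermediateField.topEquiv

include C2 in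
theorem galF [IsGalois ℚ N] (hL : IsR p L') : IsGalois ℚ F := by
  haveI hL' : IsGalois ℚ L' := H68IM.Dec_gal hL
  let ν : N →ₐ[ℚ] F := ((algebraMap Km F).comp C2.f).toRatAlgHom
  let η : L' →ₐ[ℚ] F := C2.h.toRatAlgHom
  have htop : ν.fieldRange ⊔ η.fieldRange = ⊤ := by
    rw [eq_top_iff]
    intro x _
    exact Gal_genL C2 (ν.fieldRange ⊔ η.fieldRange).toSubfield
      (fun b => (le_sup_left : ν.fieldRange ≤ _) ⟨b, rfl⟩)
      (fun y => (le_sup_right : η.fieldRange ≤ _) ⟨y, rfl⟩) x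
  haveI h4 : Normal ℚ F := Gal_nm ν η htop
  exact ⟨⟩

include C2 in
/-- restriction to `L'` is injective on the Galois group of the composita -/
theorem Gal_rho (hL : IsR p L') : IsGalois Km F ∧
    ∃ ρ : (F ≃ₐ[Km] F) →* (L' ≃ₐ[K'] L'), Function.Injective ρ ∧
      ∀ τ x, C2.h (ρ τ x) = τ (C2.h x) := by
  letI a1 : Algebra K' Km := C2.g.toAlgebra
  letI a2 : Algebra L' F := C2.h.toAlgebra
  letI a3 : Algebra K' F := ((algebraMap Km F).comp C2.g).toAlgebra
  haveI t1 : IsScalarTower K' Km F := IsScalarTower.of_algebraMap_eq (fun x => rfl)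
  haveI t2 : IsScalarTower K' L' F := IsScalarTower.of_algebraMap_eq (fun x => (C2.comm x).symm)
  haveI hL' : IsGalois ℚ L' := H68IM.Dec_gal hL
  haveI t3 : IsScalarTower ℚ K' L' := IsScalarTower.of_algebraMap_eq' (Subsingleton.elim _ _)
  haveI hG' : IsGalois K' L' := IsGalois.tower_top_of_isGalois ℚ K' L'
  have hgen : IntermediateField.adjoin Km (Set.range (algebraMap L' F)) = ⊤ := by
    refine H68IM.adj_top fun M hB hM x => ?_
    exact Gal_genL C2 M (fun b => hB (C2.f b)) (fun y => hM ⟨y, rfl⟩) x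
  haveI hG : IsGalois Km F := galois_up (K := K') (L := L') (K2 := Km) (L2 := F) hgen
  refine ⟨hG, ?_⟩
  let ρ : (F ≃ₐ[Km] F) →* (L' ≃ₐ[K'] L') :=
    (AlgEquiv.restrictNormalHom L').comp (AlgEquiv.restrictScalarsHom K')
  have hc : ∀ τ x, algebraMap L' F (ρ τ x) = τ (algebraMap L' F x) := fun τ x =>
    AlgEquiv.restrictNormal_commutes (τ.restrictScalars K') L' x
  refine ⟨ρ, ?_, hc⟩
  rw [injective_iff_map_eq_one]
  intro τ hτ
  have h1 : ∀ x, x ∈ (RingHom.eqLocusField (τ : F →+* F) (RingHom.id F)) := by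
    refine H68IM.gen_mem hgen _ (fun b => ?_) ?_
    · exact τ.commutes b
    · rintro _ ⟨x, rfl⟩
      have h2 := hc τ x
      rw [hτ] at h2
      exact h2.symm
  ext x
  exact h1 x

include C2 in
/-- The extension of the composita (here `N` need not be Galois). -/
theorem galL (hL : IsR p L') {i : ℕ} (hi : Module.finrank K' L' = p ^ i) :
    IsGalois Km F ∧ Module.finrank Km F ∣ p ^ i := by
  haveI hL' : IsGalois ℚ L' := H68IM.Dec_gal hL
  haveI t3 : IsScalarTower ℚ K' L' := IsScalarTower.of_algebraMap_eq' (Subsingleton.elim _ _)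
  haveI hG' : IsGalois K' L' := IsGalois.tower_top_of_isGalois ℚ K' L'
  haveI f1 : FiniteDimensional K' L' := Module.Finite.of_restrictScalars_finite ℚ K' L'
  haveI f2 : FiniteDimensional Km F := Module.Finite.of_restrictScalars_finite ℚ Km F
  obtain ⟨hG, ρ, hρ, -⟩ := Gal_rho C2 hL
  refine ⟨hG, ?_⟩
  have h1 := Subgroup.card_dvd_of_injective ρ hρ
  rwa [IsGalois.card_aut_eq_finrank, IsGalois.card_aut_eq_finrank, hi] at h1

theorem exists_up [IsGalois ℚ N] (hp2 : p ≠ 2) (hL : IsR p L') {i : ℕ}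
    (hi : Module.finrank K' L' = p ^ i)
    (hv : padicValNat p (Module.finrank ℚ N) ≤ padicValNat p (Module.finrank ℚ K'))
    (t : L' ≃ₐ[K'] L') : ∃ g : F ≃ₐ[Km] F, ∀ x, g (C2.h x) = C2.h (t x) := by
  haveI hL' : IsGalois ℚ L' := H68IM.Dec_gal hL
  haveI hF : IsGalois ℚ F := galF C2 hL
  haveI hcyc : IsCyclic (L' ≃ₐ[ℚ] L') := cyc_of_isR hp2 hL
  letI a2 : Algebra L' F := C2.h.toAlgebra
  haveI t4 : IsScalarTower ℚ L' F := IsScalarTower.of_algebraMap_eq' (Subsingleton.elim _ _)
  haveI t3 : IsScalarTower ℚ K' L' := IsScalarTower.of_algebraMap_eq' (Subsingleton.elim _ _)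
  let π : (F ≃ₐ[ℚ] F) →* (L' ≃ₐ[ℚ] L') := AlgEquiv.restrictNormalHom L'
  have hπs : Function.Surjective π := AlgEquiv.restrictNormalHom_surjective (E := F)
  have hπ : ∀ g x, C2.h (π g x) = g (C2.h x) := fun g x =>
    AlgEquiv.restrictNormal_commutes g L' x
  let ν : N →ₐ[ℚ] F := ((algebraMap Km F).comp C2.f).toRatAlgHom
  let σ : K' →ₐ[ℚ] L' := (algebraMap K' L').toRatAlgHom
  have hA : (ν.fieldRange.fixingSubgroup).index = Module.finrank ℚ N := by
    rw [← IntermediateField.finrank_eq_fixingSubgroup_index]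
    exact ν.equivFieldRange.toLinearEquiv.finrank_eq.symm
  have hSi : (σ.fieldRange.fixingSubgroup).index = Module.finrank ℚ K' := by
    rw [← IntermediateField.finrank_eq_fixingSubgroup_index]
    exact σ.equivFieldRange.toLinearEquiv.finrank_eq.symm
  have hSc : Nat.card (σ.fieldRange.fixingSubgroup) = p ^ i := by
    have h1 := (σ.fieldRange.fixingSubgroup).card_mul_index
    rw [hSi, IsGalois.card_aut_eq_finrank, ← Module.finrank_mul_finrank ℚ K' L', hi,
      mul_comm] at h1
    exact Nat.eq_of_mul_eq_mul_left Module.finrank_pos h1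
  have hle : σ.fieldRange.fixingSubgroup ≤ (ν.fieldRange.fixingSubgroup).map π := by
    refine cyc_le _ _ hSc ?_
    rw [hSi]
    refine le_trans ?_ hv
    have h1 : ((ν.fieldRange.fixingSubgroup).map π).index ∣ Module.finrank ℚ N := by
      rw [← hA]
      exact Subgroup.index_map_dvd _ hπs
    have hN0 : Module.finrank ℚ N ≠ 0 := Module.finrank_pos.ne'
    exact (padicValNat_dvd_iff_le hN0).1 (pow_padicValNat_dvd.trans h1)
  have ht : t.restrictScalars ℚ ∈ σ.fieldRange.fixingSubgroup := by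
    rw [IntermediateField.mem_fixingSubgroup_iff]
    rintro _ ⟨x, rfl⟩
    exact t.commutes x
  obtain ⟨g, hg, hgt⟩ := hle ht
  have hgN : ∀ x, g (algebraMap Km F (C2.f x)) = algebraMap Km F (C2.f x) := by
    intro x
    exact (IntermediateField.mem_fixingSubgroup_iff _ _).1 hg _ ⟨x, rfl⟩
  have hgt' : ∀ x, g (C2.h x) = C2.h (t x) := by
    intro x
    rw [← hπ g x, hgt]
    rfl
  have hgK : ∀ x, g (algebraMap Km F x) = algebraMap Km F x := by
    intro x
    have h1 : x ∈ (RingHom.eqLocusField ((g : F →+* F).comp (algebraMap Km F)) (algebraMap Km F)) := by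
      refine Gal_genK C2 _ (fun b => hgN b) (fun y => ?_) x
      change g (algebraMap Km F (C2.g y)) = algebraMap Km F (C2.g y)
      rw [← C2.comm, hgt', t.commutes]
    exact h1
  exact ⟨AlgEquiv.ofRingEquiv (f := g.toRingEquiv) hgK, hgt'⟩

include C2 in
theorem exists_gen (hp2 : p ≠ 2) (hL : IsR p L') :
    ∃ h : F ≃ₐ[Km] F, ∀ g : F ≃ₐ[Km] F, ∃ j : ℕ, g = h ^ j := by
  haveI hcyc : IsCyclic (L' ≃ₐ[ℚ] L') := cyc_of_isR hp2 hL
  haveI t3 : IsScalarTower ℚ K' L' := IsScalarTower.of_algebraMap_eq' (Subsingleton.elim _ _)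
  haveI f2 : FiniteDimensional Km F := Module.Finite.of_restrictScalars_finite ℚ Km F
  obtain ⟨-, ρ, hρ, -⟩ := Gal_rho C2 hL
  have hinj : Function.Injective ((AlgEquiv.restrictScalarsHom ℚ : (L' ≃ₐ[K'] L') →* _).comp ρ) := by
    refine Function.Injective.comp (g := AlgEquiv.restrictScalarsHom ℚ) ?_ hρ
    intro a b hab
    ext x
    exact DFunLike.congr_fun hab x
  haveI hc : IsCyclic (F ≃ₐ[Km] F) := isCyclic_of_injective _ hinj
  obtain ⟨h, hh⟩ := IsCyclic.exists_generator (α := F ≃ₐ[Km] F)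
  refine ⟨h, fun g => ?_⟩
  obtain ⟨j, hj⟩ := mem_powers_iff_mem_zpowers.2 (hh g)
  exact ⟨j, hj.symm⟩

end H68TM
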