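import Pool.Agent.H68.TM.Up
import Pool.Agent.H78.TE.Df

/-!
# MP_78d38b_T4: the condition on the kernel of reduction in extensions
-/

set_option autoImplicit false
open scoped Classical

open WeierstrassCurve IsDedekindDomain NumberField Pool.Agent.H10 Pool.Agent.H11

namespace H68TM

private theorem Up2_smul {F : Type} [Field F] {W1 W2 : WeierstrassCurve F} (e : W1 = W2) {l : ℕ}
    {x y : F} (h1 : W1.toAffine.Nonsingular x y) (h2 : W2.toAffine.Nonsingular x y)
    (h : l • Affine.Point.some x y h1 = 0) : l • Affine.Point.some x y h2 = 0 := by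
  subst e
  exact h

private theorem Up2_eq {N F : Type} [Field N] [Field F] {W : WeierstrassCurve N}
    {W1 W2 : WeierstrassCurve F} (e : W1 = W2) {j : ℕ} {T : W.toAffine.Point} {φ : N →+* F}
    (hφ : W.map φ = W1) {x y : F} (h1 : W1.toAffine.Nonsingular x y)
    (h2 : W2.toAffine.Nonsingular x y) (h : Affine.Point.some x y h1 = j • pm φ hφ T) :
    Affine.Point.some x y h2 = j • pm φ (hφ.trans e) T := by
  subst e
  exact h

theorem kerR_up {N F : Type} [Field N] [NumberField N] [Field F] [NumberField F] (ν : N →+* F)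
    {l : ℕ} {W : WeierstrassCurve N} {W' : WeierstrassCurve F} (hh : W.map ν = W')
    {T : W.toAffine.Point} (H : H78D.KerR l W T) : H78D.KerR l W' (pm ν hh T) := by
  obtain ⟨H1, H2⟩ := H
  constructor
  · intro w hw
    obtain ⟨v, hv, h1, h2⟩ := val_up ν w
    have hlv : (l : 𝓞 N) ∈ v.asIdeal := by
      have := hv l
      rw [Int.cast_natCast, Int.cast_natCast] at this
      exact this.2 hw
    obtain ⟨a1, a2, a3, a4, a6, aΔ⟩ := H1 v hlv
    subst hh
    refine ⟨h1 _ a1, h1 _ a2, h1 _ a3, h1 _ a4, h1 _ a6, ?_⟩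
    rw [WeierstrassCurve.map_Δ]
    exact h2 _ aΔ
  · intro N2 _ _ _ q hq x y h hl hx
    let _ : Algebra N N2 := ((algebraMap F N2).comp ν).toAlgebra
    have e : W.map (algebraMap N N2) = W'.map (algebraMap F N2) := by
      rw [← hh, WeierstrassCurve.map_map]
      rfl
    have h' : (W.map (algebraMap N N2)).toAffine.Nonsingular x y := by
      rw [e]
      exact h
    obtain ⟨j, hj⟩ := H2 N2 q hq x y h' (Up2_smul e.symm h h' hl) hx
    refine ⟨j, ?_⟩
    rw [Up2_eq e rfl h' h hj, pm_pm ν hh (algebraMap F N2) rfl]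
    rfl

end H68TM
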