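import Pool.Agent.H78.TD.Df
import Pool.Agent.H11.Good

set_option autoImplicit false
open scoped Classical

open WeierstrassCurve IsDedekindDomain NumberField Pool.Agent.H10 Pool.Agent.H11

namespace H68TM

theorem val_up {N F : Type} [Field N] [NumberField N] [Field F] [NumberField F] (ν : N →+* F)
    (w : HeightOneSpectrum (𝓞 F)) : ∃ v : HeightOneSpectrum (𝓞 N),
    (∀ n : ℤ, (n : 𝓞 N) ∈ v.asIdeal ↔ (n : 𝓞 F) ∈ w.asIdeal) ∧
    (∀ x : N, v.valuation N x ≤ 1 → w.valuation F (ν x) ≤ 1) ∧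
    ∀ x : N, v.valuation N x = 1 → w.valuation F (ν x) = 1 := by
  letI : Algebra N F := ν.toAlgebra
  have hne : w.asIdeal.under (𝓞 N) ≠ ⊥ := Ideal.IsIntegral.comap_ne_bot _ w.ne_bot
  haveI hp : (w.asIdeal.under (𝓞 N)).IsPrime := Ideal.IsPrime.under _ _
  let v : HeightOneSpectrum (𝓞 N) := ⟨w.asIdeal.under (𝓞 N), hp, hne⟩
  haveI : w.asIdeal.LiesOver v.asIdeal := ⟨rfl⟩
  have key := HeightOneSpectrum.valuation_liesOver (K := N) F v w
  refine ⟨v, fun n => ?_, fun x hx => ?_, fun x hx => ?_⟩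
  · show algebraMap (𝓞 N) (𝓞 F) (n : 𝓞 N) ∈ w.asIdeal ↔ _
    rw [map_intCast]
  · show w.valuation F (algebraMap N F x) ≤ 1
    rw [← key]
    exact pow_le_one' hx _
  · show w.valuation F (algebraMap N F x) = 1
    rw [← key, hx, one_pow]

theorem exists_D {k : Type} [Field k] [NumberField k] {E : WeierstrassCurve k} (hE : E.Δ ≠ 0)
    {l : ℕ} (hl : l ≠ 0) : ∃ D : ℤ, D ≠ 0 ∧ ∀ (F : Type) [Field F] [NumberField F] (φ : k →+* F)
    (w : HeightOneSpectrum (𝓞 F)), ((D : ℤ) : 𝓞 F) ∉ w.asIdeal →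
    GoodVal (w.valuation F) (E.map φ) l := by
  haveI : E.IsElliptic := ⟨isUnit_iff_ne_zero.2 hE⟩
  have hfin := bad_finite E l hl
  refine ⟨((∏ v ∈ hfin.toFinset, Ideal.absNorm v.asIdeal : ℕ) : ℤ), ?_, ?_⟩
  · rw [Nat.cast_ne_zero, Finset.prod_ne_zero_iff]
    intro v _ h0
    exact v.ne_bot (Ideal.absNorm_eq_zero_iff.1 h0)
  · intro F _ _ φ w hw
    obtain ⟨v, hv, h1, h2⟩ := val_up φ w
    have hgood : GoodVal (v.valuation k) E l := by
      by_contra hbad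
      apply hw
      rw [← hv]
      have hmem : v ∈ hfin.toFinset := hfin.mem_toFinset.2 hbad
      obtain ⟨c, hc⟩ := Finset.dvd_prod_of_mem (fun v : HeightOneSpectrum (𝓞 k) =>
        Ideal.absNorm v.asIdeal) hmem
      rw [hc]
      push_cast
      exact v.asIdeal.mul_mem_right _ (Ideal.absNorm_mem _)
    obtain ⟨g1, g2, g3, g4, g6, gΔ, gn⟩ := hgood
    refine ⟨h1 _ g1, h1 _ g2, h1 _ g3, h1 _ g4, h1 _ g6, ?_, ?_⟩
    · rw [WeierstrassCurve.map_Δ]; exact h2 _ gΔ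
    · have := h2 _ gn
      rwa [map_natCast] at this

theorem etT_up {N F : Type} [Field N] [NumberField N] [Field F] [NumberField F] (ν : N →+* F)
    {l : ℕ} {W : WeierstrassCurve N} {W' : WeierstrassCurve F} (hh : W.map ν = W')
    {T : W.toAffine.Point} (H : H78D.EtT l W T) : H78D.EtT l W' (pm ν hh T) := by
  subst hh
  obtain ⟨x, y, h, rfl, H⟩ := H
  refine ⟨ν x, ν y, _, pm_some _ _ _, ?_⟩
  intro w hw
  obtain ⟨v, hv, h1, h2⟩ := val_up ν w
  have hlv : (l : 𝓞 N) ∈ v.asIdeal := by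
    have := (hv (l : ℤ)).2 (by simpa using hw)
    simpa using this
  obtain ⟨⟨g1, g2, g3, g4, g6, gΔ⟩, gx⟩ := H v hlv
  refine ⟨⟨h1 _ g1, h1 _ g2, h1 _ g3, h1 _ g4, h1 _ g6, ?_⟩, h1 _ gx⟩
  rw [WeierstrassCurve.map_Δ]; exact h2 _ gΔ

end H68TM
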