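import Pool.Agent.H68.TM.Tw
import Pool.Agent.H68.TM.Cps
import Pool.Agent.H68.TM.Up
import Pool.Agent.H68.TL.Lay

/-!
# MP_78d38b_T4 over a totally real field of `l`-type: the common data of the layers
-/

set_option autoImplicit false
set_option linter.style.haveILetI false
open scoped Classical

open WeierstrassCurve IsDedekindDomain NumberField H5SW H68QS H68IM H68TL Pool.Agent.H10
  Pool.Agent.H11

namespace H68TM

/-- The common data of the descent over the layer: fields, class field theory, reduction of the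
curve. `ν` is the embedding of `N`, `JN` the complex conjugation of `N`. -/
structure Lyr (l : ℕ) (D : ℤ) {k N K Km L F : Type} [Field k] [NumberField k] [Field N]
    [NumberField N] [Field K] [NumberField K] [Field Km] [NumberField Km] [Field L] [NumberField L]
    [Field F] [NumberField F] [Algebra k N] [Algebra K L] [Algebra K F] [Algebra Km F] [Algebra L F]
    (f : k →+* K) (ν : N →+* F) (JN : N ≃+* N) (h : F ≃ₐ[Km] F) (J : F ≃ₐ[L] F) : Prop where
  gal : IsGalois K F
  galL : IsGalois K L
  nlL : ¬ l ∣ Module.finrank K L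
  tow : H78D.Tow l K Km L F h J
  cc : IsCC (J : F ≃+* F)
  noE : H68TL.NoNewE l Km F ∅ (J : F ≃+* F)
  noC : H68TL.NoUnr l Km F (J : F ≃+* F)
  fixP : H68TL.FixP D Km F
  nu : ∀ x : k, ν (algebraMap k N x) = algebraMap L F (algebraMap K L (f x))
  hnu : ∀ x : N, h (ν x) = ν x
  Jnu : ∀ x : N, J (ν x) = ν (JN x)

theorem exists_layer {l p M : ℕ} [Fact l.Prime] [Fact p.Prime] (hl2 : l ≠ 2) (hp2 : p ≠ 2)
    (hlp : l ≠ p) (hlM : l ∣ M) (hM : M ≠ 0) {k N : Type} [Field k] [NumberField k] [Field N]
    [NumberField N] [Algebra k N] [IsGalois ℚ N] (hk : IsTotallyReal k) (hN : LT l M N)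
    {JN : N ≃+* N} (hJN : IsCC JN) {D : ℤ} (hD : D ≠ 0) :
    ∃ N0 : ℕ, ∀ (K' L' K L : Type) [Field K'] [NumberField K'] [Field L']
      [NumberField L'] [Field K] [NumberField K] [Field L] [NumberField L] [Algebra K' L']
      [Algebra K L] (C : Comp k K' L' K L), IsR p L' →
      (∃ i : ℕ, Module.finrank K' L' = p ^ i) → p ^ N0 ∣ Module.finrank ℚ K' →
      ∃ (Km F : Type) (_ : Field Km) (_ : NumberField Km) (_ : Field F) (_ : NumberField F)
        (_ : Algebra K Km) (_ : Algebra Km F) (_ : Algebra K F) (_ : IsScalarTower K Km F)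
        (_ : Algebra L F) (_ : IsScalarTower K L F) (ν : N →+* F) (h : F ≃ₐ[Km] F)
        (J : F ≃ₐ[L] F), Lyr l D C.f ν JN h J := by
  have hl : l.Prime := Fact.out
  obtain ⟨N1, hN1⟩ := layerL (p := p) hl2 hp2 hlp hlM hM N hN D hD
  refine ⟨N1 + padicValNat p (Module.finrank ℚ N), ?_⟩
  intro K' L' K L _ _ _ _ _ _ _ _ _ _ C hL ⟨i, hi⟩ hK
  obtain ⟨Km, F, _, _, _, _, _, _, _, _, _, _, C2, hf, hg, hh⟩ := exists_big (N := N) C
  have hv : N1 + padicValNat p (Module.finrank ℚ N) ≤ padicValNat p (Module.finrank ℚ K') := by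
    rw [← padicValNat_dvd_iff_le (Module.finrank_pos (R := ℚ) (M := K')).ne']
    exact hK
  have hG : GoodL l D Km F := hN1 K' L' Km F C2 hL ⟨i, hi⟩ (by
    rw [padicValNat_dvd_iff_le (Module.finrank_pos (R := ℚ) (M := K')).ne']
    omega)
  obtain ⟨hGK, h, J, tow, hJ, hJN'⟩ := exists_tow hp2 hM hlM hN hJN hk C C2 hg hh hL hi
    (by omega) hG.nl
  obtain ⟨hGL, hd⟩ := galL C hL hi
  refine ⟨Km, F, inferInstance, inferInstance, inferInstance, inferInstance, inferInstance,
    inferInstance, inferInstance, inferInstance, inferInstance, inferInstance,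
    (algebraMap Km F).comp C2.f, h, J,
    { gal := hGK
      galL := hGL
      nlL := ?_
      tow := tow
      cc := hJ
      noE := hG.E _ hJ
      noC := hG.U _ hJ
      fixP := hG.B
      nu := ?_
      hnu := fun x => h.commutes _
      Jnu := hJN' }⟩
  · intro h1
    exact hlp ((Nat.prime_dvd_prime_iff_eq Fact.out Fact.out).1
      (hl.dvd_of_dvd_pow (h1.trans hd)))
  · intro x
    change algebraMap Km F (C2.f (algebraMap k N x)) = _
    rw [hf, ← IsScalarTower.algebraMap_apply K Km F, ← IsScalarTower.algebraMap_apply K L F]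

section curve

variable {l : ℕ} {D : ℤ} {k N K Km L F : Type} [Field k] [NumberField k] [Field N]
    [NumberField N] [Field K] [NumberField K] [Field Km] [NumberField Km] [Field L] [NumberField L]
    [Field F] [NumberField F] [Algebra k N] [Algebra K L] [Algebra K F] [Algebra Km F]
    [Algebra L F] {f : k →+* K} {ν : N →+* F} {JN : N ≃+* N} {h : F ≃ₐ[Km] F} {J : F ≃ₐ[L] F}

theorem Lyr.mapν (X : Lyr l D f ν JN h J) (E : WeierstrassCurve k) :
    (E.map (algebraMap k N)).map ν = ((E.map f).baseChange L).map (algebraMap L F) := by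
  rw [WeierstrassCurve.baseChange, WeierstrassCurve.map_map, WeierstrassCurve.map_map,
    WeierstrassCurve.map_map]
  congr 1
  exact RingHom.ext X.nu

theorem Lyr.maph (X : Lyr l D f ν JN h J) {E : WeierstrassCurve k} {W : WeierstrassCurve F}
    (hW : (E.map (algebraMap k N)).map ν = W) : W.map (h : F →+* F) = W := by
  rw [← hW, WeierstrassCurve.map_map]
  congr 1
  exact RingHom.ext fun x => X.hnu _

theorem Lyr.mapJ (X : Lyr l D f ν JN h J) {E : WeierstrassCurve k} {W : WeierstrassCurve F}
    (hW : (E.map (algebraMap k N)).map ν = W) : W.map (J : F →+* F) = W := by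
  rw [← hW, WeierstrassCurve.map_map, WeierstrassCurve.map_map, WeierstrassCurve.map_map]
  congr 1
  refine RingHom.ext fun x => ?_
  change J (ν (algebraMap k N x)) = ν (algebraMap k N x)
  rw [X.nu]
  exact J.commutes _

theorem Lyr.hT (X : Lyr l D f ν JN h J) {E : WeierstrassCurve k} {W : WeierstrassCurve F}
    (hW : (E.map (algebraMap k N)).map ν = W) (T : (E.map (algebraMap k N)).toAffine.Point) :
    pm (h : F →+* F) (X.maph hW) (pm ν hW T) = pm ν hW T := by
  rw [pm_pm ν hW (h : F →+* F) (X.maph hW)]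
  exact pm_congr _ _ (fun x => X.hnu x) T

theorem Lyr.JT (X : Lyr l D f ν JN h J) {E : WeierstrassCurve k} {W : WeierstrassCurve F}
    (hW : (E.map (algebraMap k N)).map ν = W) (T : (E.map (algebraMap k N)).toAffine.Point)
    (hh : (E.map (algebraMap k N)).map (JN : N →+* N) = E.map (algebraMap k N)) :
    pm (J : F →+* F) (X.mapJ hW) (pm ν hW T) = pm ν hW (pm (JN : N →+* N) hh T) := by
  rw [pm_pm ν hW (J : F →+* F) (X.mapJ hW), pm_pm (JN : N →+* N) hh ν hW]
  exact pm_congr _ _ (fun x => X.Jnu x) T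

end curve

end H68TM
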