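import Pool.Agent.H68.TM.Fin
import Pool.Agent.H68.TM.Cmp

/-!
# MP_78d38b_T4 over a totally real field of `l`-type: the tower
-/

set_option autoImplicit false
set_option linter.style.haveILetI false
open scoped Classical

open WeierstrassCurve IsDedekindDomain NumberField H5SW H68QS H68IM H68TL Pool.Agent.H10
  Pool.Agent.H11

namespace H68TM

/-- Restriction is a bijection from the `l`-primary part of the Tate-Shafarevich group of `E` over
`K` to the one over `L`, and the index of the points over `K` in the points over `L` has an exponent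
prime to `l`. -/
def StableL (l : ℕ) (K L : Type) [Field K] [NumberField K] [Field L] [NumberField L] [Algebra K L]
    (E : WeierstrassCurve K) : Prop :=
  H78D.ShaPBijective l K E L ∧
    ∃ m : ℕ, ¬ l ∣ m ∧ ∀ P : (E.baseChange L).toAffine.Point,
      ∃ Q : (E.baseChange K).toAffine.Point,
        m • P = WeierstrassCurve.Affine.Point.map (Algebra.ofId K L) Q

/-- The data of the theorem: `T` is a point of order `l` over the field `N` of the `f`-th roots of
unity over `k`, complex conjugation maps it to `-T`, the reduction above `l` is good and `T` is not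
in the kernel of the reduction. -/
def OddEtale (l f : ℕ) {k : Type} [Field k] [NumberField k] (E : WeierstrassCurve k) : Prop :=
  ∃ (N : Type) (_ : Field N) (_ : NumberField N) (_ : Algebra k N)
    (_ : IsCyclotomicExtension {f} k N) (J : N ≃ₐ[k] N)
    (T : (E.map (algebraMap k N)).toAffine.Point),
    IsCC (J : N ≃+* N) ∧ T ≠ 0 ∧ l • T = 0 ∧
    (∃ hh : (E.map (algebraMap k N)).map (J : N →+* N) = E.map (algebraMap k N),
      pm (J : N →+* N) hh T = -T) ∧ H78D.EtT l (E.map (algebraMap k N)) T

theorem stable_tower {l p f : ℕ} [Fact l.Prime] [Fact p.Prime] (hl2 : l ≠ 2) (hp2 : p ≠ 2)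
    (hlp : l ≠ p) (hf : f ≠ 0) {k : Type} [Field k] [NumberField k] (hk : LType l k)
    {E : WeierstrassCurve k} (hE : E.Δ ≠ 0) (H : OddEtale l f E) :
    ∃ N : ℕ, ∀ (K L : Type) [Field K] [NumberField K] [Field L] [NumberField L]
      [Algebra k K] [Algebra k L] [Algebra K L] [IsScalarTower k K L],
      (∃ (L' : Type) (_ : Field L') (_ : NumberField L') (h : L' →+* L), IsR p L' ∧
        IntermediateField.adjoin k (Set.range h) = ⊤) →
      (∃ j : ℕ, Module.finrank K L = p ^ j) → p ^ N ∣ Module.finrank ℚ K →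
      StableL l K L (E.map (algebraMap k K)) := by
  have hl : l.Prime := Fact.out
  obtain ⟨N1, _, _, _, _, J1, T1, hJ1, hT1, hTl, ⟨hh1, hTJ⟩, het⟩ := H
  obtain ⟨M, N, _, _, ν, J, hlM, hM, hNG, hLT, hJ⟩ := exists_comp (m := l) hk hl.ne_zero hf N1
  haveI := hNG
  letI : Algebra k N := (ν.comp (algebraMap k N1)).toAlgebra
  have hν : (E.map (algebraMap k N1)).map ν = E.map (algebraMap k N) := by
    rw [WeierstrassCurve.map_map]
    rfl
  have hJν : ∀ x, J (ν x) = ν (J1 x) := by
    intro x
    obtain ⟨φ⟩ := cc_emb N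
    apply φ.injective
    rw [hJ]
    exact (hJ1 (φ.comp ν) x).symm
  have hJW : (E.map (algebraMap k N)).map (J : N →+* N) = E.map (algebraMap k N) := by
    rw [WeierstrassCurve.map_map]
    congr 1
    refine RingHom.ext fun x => ?_
    change J (ν (algebraMap k N1 x)) = ν (algebraMap k N1 x)
    rw [hJν, J1.commutes]
  obtain ⟨N0, hN0⟩ := stable_comp (p := p) (T0 := pm ν hν T1) hl2 hp2 hlp hlM hM hk.1 hLT hJ hE
    (by
      intro h0
      apply hT1
      apply pm_injective ν hν
      rw [h0, map_zero])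
    (by rw [← map_nsmul, hTl, map_zero])
    ⟨hJW, by
      rw [pm_pm ν hν (J : N →+* N) hJW, ← map_neg, ← hTJ, pm_pm (J1 : N1 →+* N1) hh1 ν hν]
      exact pm_congr _ _ (fun x => hJν x) T1⟩
    (etT_up ν hν het)
  refine ⟨N0 + padicValNat p (Module.finrank ℚ k), ?_⟩
  intro K L _ _ _ _ _ _ _ _ ⟨L', _, _, h, hR, hgen⟩ ⟨j, hj⟩ hK
  obtain ⟨K', _, _, _, ⟨C, hC⟩, hd, hN'⟩ := decompose_l (K := K) h hR hgen
  have e1 : E.map C.f = E.map (algebraMap k K) := by
    congr 1
    exact RingHom.ext hC
  have h1 := hN0 K' L' K L C hR ⟨j, by rw [hd, hj]⟩ (hN' N0 hK)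
  rw [e1] at h1
  exact h1

end H68TM
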