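import Pool.Agent.H68.TL.Dfl

/-!
# MP_78d38b: totally real fields of `l`-type, definition
-/

set_option autoImplicit false

open NumberField

namespace H68TM

/-- `k` is totally real and contained in a Galois extension `F` of the rationals whose degree over a
field `F₀` is a power of `l`, where `F₀` is contained in a cyclotomic field. -/
def LType (l : ℕ) (k : Type) [Field k] [NumberField k] : Prop :=
  IsTotallyReal k ∧ ∃ (F : Type) (_ : Field F) (_ : NumberField F) (F₀ : IntermediateField ℚ F),
    IsGalois ℚ F ∧ (∃ m : ℕ, m ≠ 0 ∧ Nonempty (F₀ →+* CyclotomicField m ℚ)) ∧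
    (∃ r : ℕ, Module.finrank F₀ F = l ^ r) ∧ Nonempty (k →+* F)

end H68TM
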