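import Pool.Agent.H68.TM.Tw
import Pool.Agent.H68.TM.Cps
import Pool.Agent.H68.TM.Up
import Pool.Agent.H68.TM.Decl
import Pool.Agent.H68.TL.Lay
import Pool.Agent.H78.TD.Fin

/-!
# MP_78d38b_T4 over a totally real field of `l`-type: the layers
-/

set_option autoImplicit false
set_option linter.style.haveILetI false
open scoped Classical

open WeierstrassCurve IsDedekindDomain NumberField H5SW H68QS H68IM H68TL Pool.Agent.H10
  Pool.Agent.H11

namespace H68TM

/-- The data of the descent. -/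
theorem exists_dat {l p M : ℕ} [Fact l.Prime] [Fact p.Prime] (hl2 : l ≠ 2) (hp2 : p ≠ 2)
    (hlp : l ≠ p) (hlM : l ∣ M) (hM : M ≠ 0) {k N : Type} [Field k] [NumberField k] [Field N]
    [NumberField N] [Algebra k N] [IsGalois ℚ N] (hk : IsTotallyReal k) (hN : LT l M N)
    {JN : N ≃+* N} (hJN : IsCC JN) {E : WeierstrassCurve k} (hE : E.Δ ≠ 0)
    {T0 : (E.map (algebraMap k N)).toAffine.Point} (hT0 : T0 ≠ 0) (hTl : l • T0 = 0)
    (hTJ : ∃ hh : (E.map (algebraMap k N)).map (JN : N →+* N) = E.map (algebraMap k N),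
      pm (JN : N →+* N) hh T0 = -T0) (het : H78D.EtT l (E.map (algebraMap k N)) T0) :
    ∃ (D : ℤ) (N0 : ℕ), ∀ (K' L' K L : Type) [Field K'] [NumberField K'] [Field L']
      [NumberField L'] [Field K] [NumberField K] [Field L] [NumberField L] [Algebra K' L']
      [Algebra K L] (C : Comp k K' L' K L), IsR p L' →
      (∃ i : ℕ, Module.finrank K' L' = p ^ i) → p ^ N0 ∣ Module.finrank ℚ K' →
      ∃ (Km F : Type) (_ : Field Km) (_ : NumberField Km) (_ : Field F) (_ : NumberField F)
        (_ : Algebra K Km) (_ : Algebra Km F) (_ : Algebra K F) (_ : IsScalarTower K Km F)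
        (_ : Algebra L F) (_ : IsScalarTower K L F) (W : WeierstrassCurve F)
        (T : W.toAffine.Point) (h : F ≃ₐ[Km] F) (J : F ≃ₐ[L] F),
        IsGalois K F ∧ H78D.Dat l K Km L F W T h J D ∧
        ((E.map C.f).baseChange L).map (algebraMap L F) = W := by
  have hl : l.Prime := Fact.out
  obtain ⟨D, hD, hDg⟩ := exists_D hE hl.ne_zero
  obtain ⟨N1, hN1⟩ := layerL (p := p) hl2 hp2 hlp hlM hM N hN D hD
  refine ⟨D, N1 + padicValNat p (Module.finrank ℚ N), ?_⟩
  intro K' L' K L _ _ _ _ _ _ _ _ _ _ C hL ⟨i, hi⟩ hK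
  obtain ⟨Km, F, _, _, _, _, _, _, _, _, _, _, C2, hf, hg, hh⟩ := exists_big (N := N) C
  have hv : N1 + padicValNat p (Module.finrank ℚ N) ≤ padicValNat p (Module.finrank ℚ K') := by
    rw [← padicValNat_dvd_iff_le (Module.finrank_pos (R := ℚ) (M := K')).ne']
    exact hK
  have hG : GoodL l D Km F := hN1 K' L' Km F C2 hL ⟨i, hi⟩ (by
    rw [padicValNat_dvd_iff_le (Module.finrank_pos (R := ℚ) (M := K')).ne']
    omega)
  obtain ⟨hGK, h, J, tow, hJ, hJN'⟩ := exists_tow hp2 hM hlM hN hJN hk C C2 hg hh hL hi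
    (by omega) hG.nl
  -- the curve over `F`
  have e1 : ∀ x : k, algebraMap Km F (C2.f (algebraMap k N x)) =
      algebraMap L F (algebraMap K L (C.f x)) := by
    intro x
    rw [hf, ← IsScalarTower.algebraMap_apply K Km F, ← IsScalarTower.algebraMap_apply K L F]
  obtain ⟨ν, hν⟩ : ∃ ν : N →+* F, ν = (algebraMap Km F).comp C2.f := ⟨_, rfl⟩
  obtain ⟨W, hW⟩ : ∃ W : WeierstrassCurve F,
      W = ((E.map C.f).baseChange L).map (algebraMap L F) := ⟨_, rfl⟩
  have hW1 : W = E.map (((algebraMap L F).comp (algebraMap K L)).comp C.f) := by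
    rw [hW, WeierstrassCurve.baseChange, WeierstrassCurve.map_map, WeierstrassCurve.map_map]
  have e2 : ν.comp (algebraMap k N) = ((algebraMap L F).comp (algebraMap K L)).comp C.f := by
    rw [hν]
    exact RingHom.ext e1
  have hνW : (E.map (algebraMap k N)).map ν = W := by
    rw [hW1, WeierstrassCurve.map_map, e2]
  refine ⟨Km, F, inferInstance, inferInstance, inferInstance, inferInstance, inferInstance,
    inferInstance, inferInstance, inferInstance, inferInstance, inferInstance, W,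
    pm ν hνW T0, h, J, hGK, ?_, hW.symm⟩
  have hKF : ∀ (g : F →+* F), (∀ x : k, g (ν (algebraMap k N x)) = ν (algebraMap k N x)) →
      W.map g = W := by
    intro g hg
    rw [← hνW, WeierstrassCurve.map_map, WeierstrassCurve.map_map, WeierstrassCurve.map_map]
    congr 1
    exact RingHom.ext hg
  have hWh : W.map (h : F →+* F) = W := by
    refine hKF _ fun x => ?_
    rw [hν]
    exact h.commutes _
  have hWJ : W.map (J : F →+* F) = W := by
    refine hKF _ fun x => ?_
    rw [hν]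
    change J (algebraMap Km F (C2.f _)) = algebraMap Km F (C2.f _)
    rw [e1]
    exact J.commutes _
  refine
    { prime := hl
      three := ?_
      tow := tow
      ell := ?_
      T0 := ?_
      Tl := ?_
      Th := ⟨hWh, ?_⟩
      TJ := ⟨hWJ, ?_⟩
      et := etT_up ν hνW het
      good := ?_
      noE := hG.E _ hJ
      noC := hG.U _ hJ
      fixP := hG.B }
  · have h2 := hl.two_le
    omega
  · rw [hW1]
    refine ⟨?_⟩
    rw [WeierstrassCurve.map_Δ]
    exact (isUnit_iff_ne_zero.2 hE).map _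
  · intro h0
    apply hT0
    apply pm_injective ν hνW
    rw [h0, map_zero]
  · rw [← map_nsmul, hTl, map_zero]
  · rw [pm_pm ν hνW (h : F →+* F) hWh]
    refine pm_congr _ _ (fun x => ?_) T0
    rw [hν]
    exact h.commutes _
  · obtain ⟨hh1, hh2⟩ := hTJ
    rw [pm_pm ν hνW (J : F →+* F) hWJ, ← map_neg, ← hh2, pm_pm (JN : N →+* N) hh1 ν hνW]
    refine pm_congr _ _ (fun x => ?_) T0
    rw [hν]
    exact hJN' x
  · intro w hw
    rw [hW1]
    exact hDg F _ w hw

/-- The main theorem for composita. -/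
theorem stable_comp {l p M : ℕ} [Fact l.Prime] [Fact p.Prime] (hl2 : l ≠ 2) (hp2 : p ≠ 2)
    (hlp : l ≠ p) (hlM : l ∣ M) (hM : M ≠ 0) {k N : Type} [Field k] [NumberField k] [Field N]
    [NumberField N] [Algebra k N] [IsGalois ℚ N] (hk : IsTotallyReal k) (hN : LT l M N)
    {JN : N ≃+* N} (hJN : IsCC JN) {E : WeierstrassCurve k} (hE : E.Δ ≠ 0)
    {T0 : (E.map (algebraMap k N)).toAffine.Point} (hT0 : T0 ≠ 0) (hTl : l • T0 = 0)
    (hTJ : ∃ hh : (E.map (algebraMap k N)).map (JN : N →+* N) = E.map (algebraMap k N),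
      pm (JN : N →+* N) hh T0 = -T0) (het : H78D.EtT l (E.map (algebraMap k N)) T0) :
    ∃ N0 : ℕ, ∀ (K' L' K L : Type) [Field K'] [NumberField K'] [Field L']
      [NumberField L'] [Field K] [NumberField K] [Field L] [NumberField L] [Algebra K' L']
      [Algebra K L] (C : Comp k K' L' K L), IsR p L' →
      (∃ i : ℕ, Module.finrank K' L' = p ^ i) → p ^ N0 ∣ Module.finrank ℚ K' →
      H78D.ShaPBijective l K (E.map C.f) L ∧
        ∃ m : ℕ, ¬ l ∣ m ∧ ∀ P : ((E.map C.f).baseChange L).toAffine.Point,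
          ∃ Q : ((E.map C.f).baseChange K).toAffine.Point,
            m • P = WeierstrassCurve.Affine.Point.map (Algebra.ofId K L) Q := by
  have hl : l.Prime := Fact.out
  obtain ⟨D, N0, hN0⟩ := exists_dat hl2 hp2 hlp hlM hM hk hN hJN hE hT0 hTl hTJ het
  refine ⟨N0, ?_⟩
  intro K' L' K L _ _ _ _ _ _ _ _ _ _ C hL hi hK
  obtain ⟨Km, F, _, _, _, _, _, _, _, _, _, _, W, T, h, J, hG, H, hW⟩ := hN0 K' L' K L C hL hi hK
  obtain ⟨i, hi⟩ := hi
  obtain ⟨hGL, hd⟩ := galL C hL hi
  have hnl : ¬ l ∣ Module.finrank K L := by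
    intro h1
    exact hlp ((Nat.prime_dvd_prime_iff_eq Fact.out Fact.out).1
      (hl.dvd_of_dvd_pow (h1.trans hd)))
  have hEL : ((E.map C.f).baseChange L).IsElliptic := by
    refine ⟨?_⟩
    rw [WeierstrassCurve.baseChange, WeierstrassCurve.map_Δ, WeierstrassCurve.map_Δ]
    exact ((isUnit_iff_ne_zero.2 hE).map _).map _
  exact H78D.of_ctl hl hnl hEL (H78D.ct_l H rfl hW)

end H68TM
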