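import Pool.Agent.H68.TM.Gal
import Pool.Agent.H68.TL.Ccl
import Pool.Agent.H68.TL.Idl
import Pool.Agent.H68.IM.Base
import Pool.Agent.H78.TD.Df

/-!
# MP_78d38b: the geometry of the tower `K < L < F`, `K < Km < F`
-/

set_option autoImplicit false
set_option linter.style.haveILetI false
open scoped Classical

open NumberField H5SW H68QS H68IM H68TL

namespace H68TM

/-- An automorphism maps the image of a normal extension of the rationals to itself. -/
theorem exists_rest {N F : Type} [Field N] [NumberField N] [Field F] [NumberField F]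
    [IsGalois ℚ N] (ν : N →+* F) (g : F ≃+* F) : ∃ σ : N ≃ₐ[ℚ] N, ∀ x, g (ν x) = ν (σ x) := by
  letI : Algebra N F := ν.toAlgebra
  let g' : F ≃ₐ[ℚ] F := AlgEquiv.ofRingEquiv (f := g) (fun q => by
    rw [eq_ratCast, map_ratCast])
  exact ⟨g'.restrictNormal N, fun x => (AlgEquiv.restrictNormal_commutes g' N x).symm⟩

variable {k N K' L' K L Km F : Type} [Field k] [NumberField k] [Field N] [NumberField N]
  [Field K'] [NumberField K'] [Field L'] [NumberField L'] [Field K] [NumberField K] [Field L]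
  [NumberField L] [Field Km] [NumberField Km] [Field F] [NumberField F] [Algebra K' L']
  [Algebra K L] [Algebra K Km] [Algebra Km F] [Algebra K F] [IsScalarTower K Km F] [Algebra L F]
  [IsScalarTower K L F]

omit [Algebra K Km] [Algebra K F] [IsScalarTower K Km F] [IsScalarTower K L F] in
theorem exists_J (hk : IsTotallyReal k) (C : Comp k K' L' K L) (C2 : Comp N K' L' Km F)
    (hL' : IsTotallyReal L') {JN : N ≃+* N} (hJN : IsCC JN) :
    ∃ J : F ≃ₐ[L] F, IsCC (J : F ≃+* F) ∧
      ∀ x : N, J (algebraMap Km F (C2.f x)) = algebraMap Km F (C2.f (JN x)) := by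
  have hLr := real_of_comp C hk hL'
  obtain ⟨J0, hJ0⟩ := comp_exists C2 hL' hJN
  obtain ⟨φ⟩ := cc_emb F
  refine ⟨AlgEquiv.ofRingEquiv (f := J0) ?_, hJ0, ?_⟩
  · intro x
    apply φ.injective
    rw [hJ0]
    exact real_fix hLr (algebraMap L F) φ x
  · intro x
    apply φ.injective
    change φ (J0 _) = _
    rw [hJ0]
    exact cc_f C2 hJN φ x

theorem exists_tow {l p M : ℕ} [Fact l.Prime] [Fact p.Prime] (hp2 : p ≠ 2)
    (hM : M ≠ 0) (hlM : l ∣ M) [IsGalois ℚ N] (hN : LT l M N) {JN : N ≃+* N} (hJN : IsCC JN)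
    (hk : IsTotallyReal k) (C : Comp k K' L' K L) (C2 : Comp N K' L' Km F)
    (hg : ∀ x : K', C2.g x = algebraMap K Km (C.g x))
    (hh : ∀ x : L', C2.h x = algebraMap L F (C.h x)) (hL : IsR p L') {i : ℕ}
    (hi : Module.finrank K' L' = p ^ i)
    (hv : padicValNat p (Module.finrank ℚ N) ≤ padicValNat p (Module.finrank ℚ K'))
    (hnl : ¬ l ∣ Module.finrank Km F) :
    IsGalois K F ∧ ∃ (h : F ≃ₐ[Km] F) (J : F ≃ₐ[L] F), H78D.Tow l K Km L F h J ∧
      IsCC (J : F ≃+* F) ∧
      ∀ x : N, J (algebraMap Km F (C2.f x)) = algebraMap Km F (C2.f (JN x)) := by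
  haveI hGF : IsGalois ℚ F := galF C2 hL
  haveI hGL : IsGalois ℚ L' := Dec_gal hL
  haveI hGK : IsGalois K F := IsGalois.tower_top_of_isGalois ℚ K F
  haveI hGm : IsGalois Km F := IsGalois.tower_top_of_isGalois ℚ Km F
  obtain ⟨J, hJ, hJN'⟩ := exists_J hk C C2 hL.1 hJN
  obtain ⟨h, hgen⟩ := exists_gen C2 hp2 hL
  refine ⟨hGK, h, J, ⟨hgen, ?_, ?_, ?_, fun x => hJ.invol x, ?_, ?_⟩, hJ, hJN'⟩
  · intro hd
    haveI : FiniteDimensional Km F := Module.Finite.of_restrictScalars_finite ℚ Km F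
    have h1 : orderOf h ∣ Nat.card (F ≃ₐ[Km] F) := orderOf_dvd_natCard h
    rw [IsGalois.card_aut_eq_finrank] at h1
    exact hnl (hd.trans h1)
  · intro g
    obtain ⟨σ, hσ⟩ := exists_rest C2.h (g : F ≃+* F)
    have hσK : ∀ z : K', (σ : L' ≃+* L') (algebraMap K' L' z) = algebraMap K' L' z := by
      intro z
      apply C2.h.injective
      change C2.h (σ _) = _
      rw [← hσ, C2.comm, hg, ← IsScalarTower.algebraMap_apply K Km F]
      exact g.commutes _
    obtain ⟨g1, hg1⟩ := exists_up C2 hp2 hL hi hv (AlgEquiv.ofRingEquiv (f := (σ : L' ≃+* L')) hσK)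
    obtain ⟨j, hj⟩ := hgen g1
    refine ⟨j, fun x => ?_⟩
    rw [← hj]
    have key : ∀ x : L, x ∈ RingHom.eqLocusField ((g : F →+* F).comp (algebraMap L F))
        ((g1 : F →+* F).comp (algebraMap L F)) := by
      refine gen_mem C.genL _ (rat_mem _) ?_
      rintro _ (⟨y, rfl⟩ | ⟨y, rfl⟩)
      · change g (algebraMap L F (algebraMap K L (C.f y))) =
          g1 (algebraMap L F (algebraMap K L (C.f y)))
        rw [← IsScalarTower.algebraMap_apply K L F, g.commutes,
          IsScalarTower.algebraMap_apply K Km F, g1.commutes]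
      · change g (algebraMap L F (C.h y)) = g1 (algebraMap L F (C.h y))
        rw [← hh, hg1]
        exact hσ y
    exact key x
  · intro g x
    have key : ∀ x : F, x ∈ RingHom.eqLocusField ((h : F →+* F).comp (g : F →+* F))
        ((g : F →+* F).comp (h : F →+* F)) := by
      refine gen_mem C2.genL _ (rat_mem _) ?_
      rintro _ (⟨y, rfl⟩ | ⟨y, rfl⟩)
      · change h (g (algebraMap Km F (C2.f y))) = g (h (algebraMap Km F (C2.f y)))
        obtain ⟨σ, hσ⟩ := exists_rest ((algebraMap Km F).comp C2.f) (g : F ≃+* F)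
        have h1 : g (algebraMap Km F (C2.f y)) = algebraMap Km F (C2.f (σ y)) := hσ y
        rw [h1, h.commutes, h.commutes, h1]
      · change h (g (C2.h y)) = g (h (C2.h y))
        obtain ⟨σ, hσ⟩ := exists_rest C2.h (h : F ≃+* F)
        have h1 : h (C2.h y) = C2.h (σ y) := hσ y
        rw [h1, hh, hh, g.commutes, g.commutes, ← hh, ← hh, h1]
    exact key x
  · intro z hz
    obtain ⟨φ⟩ := cc_emb F
    apply φ.injective
    have h1 : φ (J z) = starRingEnd ℂ (φ z) := hJ φ z
    rw [h1, map_inv₀]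
    have h2 : (φ z) ^ l = 1 := by rw [← map_pow, hz, map_one]
    have h3 : ‖φ z‖ = 1 := Complex.norm_eq_one_of_pow_eq_one h2 (Fact.out : l.Prime).ne_zero
    exact (Complex.inv_eq_conj h3).symm
  · obtain ⟨ζ, hζ⟩ := LT.zeta hM hlM hN
    exact ⟨C2.f ζ, hζ.map_of_injective (f := C2.f) C2.f.injective⟩

end H68TM
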